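import Pool.Agent.Q52.WM.Defs

/-!
# Classes of finite groups closed under subgroups and extensions
-/

set_option autoImplicit false

namespace Pool.Agent.Q52.WM

open Equiv

/-- A property of finite groups which is inherited by subgroups (more precisely, by groups with an
injective homomorphism to a group with the property) and by extensions: `A` has the property if
there is a homomorphism from `A` to a group with the property whose kernel has the property. -/
structure Closed (P : (A : Type) → [Group A] → Prop) : Prop where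
  sub : ∀ (A B : Type) [Group A] [Group B] [Finite A] [Finite B] (f : A →* B),
    Function.Injective f → P B → P A
  ext : ∀ (A B : Type) [Group A] [Group B] [Finite A] [Finite B] (f : A →* B),
    P f.ker → P B → P A

variable {P : (A : Type) → [Group A] → Prop}

theorem P_pi (hP : Closed P) (G : Type) [Group G] [Finite G] (h : P G) (m : ℕ) :
    P (Fin m → G) := by
  induction m with
  | zero =>
    exact hP.sub (Fin 0 → G) G (1 : (Fin 0 → G) →* G) (fun x y _ => Subsingleton.elim x y) h
  | succ m ih =>
    let f : (Fin (m + 1) → G) →* (Fin m → G) :=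
      { toFun := fun x i => x i.succ
        map_one' := rfl
        map_mul' := fun x y => rfl }
    refine hP.ext _ _ f ?_ ih
    let k : f.ker →* G :=
      { toFun := fun x => x.1 0
        map_one' := rfl
        map_mul' := fun x y => rfl }
    refine hP.sub _ _ k ?_ h
    rw [injective_iff_map_eq_one]
    rintro ⟨x, hx⟩ h1
    have h2 : f x = 1 := hx
    apply Subtype.ext
    funext i
    refine Fin.cases ?_ (fun j => ?_) i
    · exact h1
    · exact congrFun h2 j

theorem P_wreath (hP : Closed P) {m n d : ℕ} (hn : 1 ≤ n) {G : Subgroup (Perm (Fin n))}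
    {H : Subgroup (Perm (Fin m))} {G' : Subgroup (Perm (Fin d))} (hG : P G) (hH : P H)
    (h : InWreath G H G') : P G' := by
  obtain ⟨f, hf⟩ := h
  choose s hs g hg h using hf
  let j₀ : Fin n := ⟨0, hn⟩
  have key : ∀ (π : Perm (Fin d)) (hπ : π ∈ G') (i : Fin m) (j : Fin n),
      f (π (f.symm (i, j))) = (s π hπ i, g π hπ i j) := by
    intro π hπ i j
    rw [h π hπ, Equiv.apply_symm_apply]
  have hs1 : ∀ (h1 : (1 : Perm (Fin d)) ∈ G'), s 1 h1 = 1 := by
    intro h1
    ext1 i
    have h2 := key 1 h1 i j₀
    rw [Perm.one_apply, Equiv.apply_symm_apply] at h2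
    exact (congrArg Prod.fst h2).symm
  have hmul : ∀ (π ρ : Perm (Fin d)) (hπ : π ∈ G') (hρ : ρ ∈ G') (i : Fin m) (j : Fin n),
      (s (π * ρ) (G'.mul_mem hπ hρ) i, g (π * ρ) (G'.mul_mem hπ hρ) i j) =
        (s π hπ (s ρ hρ i), g π hπ (s ρ hρ i) (g ρ hρ i j)) := by
    intro π ρ hπ hρ i j
    rw [← key, Perm.mul_apply, h π hπ, h ρ hρ, Equiv.apply_symm_apply]
  let r : G' →* H := MonoidHom.mk' (fun π => ⟨s π.1 π.2, hs π.1 π.2⟩) (by
    rintro ⟨π, hπ⟩ ⟨ρ, hρ⟩
    apply Subtype.ext
    ext1 i
    exact congrArg Prod.fst (hmul π ρ hπ hρ i j₀))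
  have hr : ∀ x : r.ker, s x.1.1 x.1.2 = 1 := by
    rintro ⟨x, hx⟩
    have h1 : r x = 1 := hx
    exact congrArg Subtype.val h1
  let k : r.ker →* (Fin m → G) := MonoidHom.mk' (fun x i => ⟨g x.1.1 x.1.2 i, hg x.1.1 x.1.2 i⟩) (by
    rintro x y
    funext i
    apply Subtype.ext
    ext1 j
    have h1 := congrArg Prod.snd (hmul x.1.1 y.1.1 x.1.2 y.1.2 i j)
    have h2 := hr y
    simp only [h2, Perm.one_apply] at h1
    exact h1)
  refine hP.ext _ _ r (hP.sub _ _ k ?_ (P_pi hP G hG m)) hH
  rw [injective_iff_map_eq_one]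
  rintro x hx
  have h3 := hr x
  obtain ⟨⟨π, hπ⟩, hπ'⟩ := x
  apply Subtype.ext
  apply Subtype.ext
  change π = 1
  ext1 y
  rw [Perm.one_apply]
  apply f.injective
  have h1 : f (π y) = (s π hπ (f y).1, g π hπ (f y).1 (f y).2) := h π hπ y
  have h2 : g π hπ (f y).1 = 1 := congrArg Subtype.val (congrFun hx (f y).1)
  have h3' : s π hπ = 1 := h3
  rw [h1, h2, h3']
  rfl

theorem solvable_closed : Closed (fun A [Group A] => Group.IsSolvable A) where
  sub A B _ _ _ _ f hf hB := by
    have h1 : Group.IsSolvable B := hB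
    exact Group.isSolvable_of_isSolvable_injective hf
  ext A B _ _ _ _ f hk hB := by
    have h1 : Group.IsSolvable B := hB
    have h2 : Group.IsSolvable f.ker := hk
    exact Group.isSolvable_of_ker_le_range f.ker.subtype f (by simp)

theorem true_closed : Closed (fun A [Group A] => True) where
  sub _ _ _ _ _ _ _ _ _ := trivial
  ext _ _ _ _ _ _ _ _ _ := trivial

end Pool.Agent.Q52.WM
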