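import Pool.Agent.Q52.WM.Perm

/-!
# The index in a product with a freely acting group of prime order
-/

set_option autoImplicit false

namespace Pool.Agent.Q52.WM

open Equiv

section

variable {α : Type*} [Fintype α] [DecidableEq α]

theorem exists_fix {g : Perm α} {c : ℕ} (hc : c ∈ g.cycleType) : ∃ x, (g ^ c) x = x := by
  rw [Perm.mem_cycleType_iff] at hc
  obtain ⟨a, τ, h1, h2, h3, h4⟩ := hc
  obtain ⟨x, hx⟩ := h3.nonempty_support
  refine ⟨x, ?_⟩
  have h5 : τ x = x := by
    rcases h2 x with h | h
    · rw [Perm.mem_support] at hx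
      exact absurd h hx
    · exact h
  have h6 : a ^ c = 1 := by
    rw [← h4, ← h3.orderOf]
    exact pow_orderOf_eq_one a
  have h7 : (τ ^ c) x = x := by
    have h8 : ∀ k : ℕ, (τ ^ k) x = x := by
      intro k
      induction k with
      | zero => rfl
      | succ k ih => rw [pow_succ, Perm.mul_apply, h5, ih]
    exact h8 c
  rw [h1, h2.commute.mul_pow, h6, one_mul]
  exact h7

theorem ind_mul_eq {g h : Perm α} (hd : Perm.Disjoint g h) : indT (g * h) = indT g + indT h := by
  have h1 := two_card_le g
  have h2 := two_card_le h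
  unfold indT
  rw [hd.cycleType_mul, Multiset.sum_add, Multiset.card_add]
  omega

end

theorem ind_same {m n : ℕ} (g : Perm (Fin n)) (π : Perm (Fin m × Fin n))
    (h : ∀ i j, π (i, j) = (i, g j)) : indT π = m * indT g := by
  let c : Fin m → Perm (Fin m × Fin n) := fun i => Perm.prodExtendRight i g
  have hc1 : ∀ i j, c i (i, j) = (i, g j) := fun i j => Perm.prodExtendRight_apply_eq i g j
  have hc2 : ∀ i k j, k ≠ i → c i (k, j) = (k, j) := fun i k j hk =>
    Perm.prodExtendRight_apply_ne g hk j
  have hc3 : ∀ i, indT (c i) = indT g := by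
    intro i
    let f : Fin n ≃ {x : Fin m × Fin n // x.1 = i} :=
      { toFun := fun j => ⟨(i, j), rfl⟩
        invFun := fun x => x.1.2
        left_inv := fun j => rfl
        right_inv := fun x => by
          obtain ⟨⟨a, b⟩, hx⟩ := x
          have hx' : a = i := hx
          subst hx'
          rfl }
    have h1 : c i = g.extendDomain f := by
      ext1 ⟨k, j⟩
      by_cases hk : k = i
      · subst hk
        rw [hc1]
        exact (Perm.extendDomain_apply_image g f j).symm
      · rw [hc2 i k j hk]
        exact (Perm.extendDomain_apply_not_subtype (b := ((k, j) : Fin m × Fin n)) g f hk).symm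
    rw [h1, ind_extend]
  have key : ∀ l : List (Fin m), l.Nodup →
      (∀ x, (l.map c).prod x = if x.1 ∈ l then (x.1, g x.2) else x) ∧
      indT (l.map c).prod = l.length * indT g := by
    intro l
    induction l with
    | nil =>
      intro _
      refine ⟨fun x => by simp, ?_⟩
      simp [indT]
    | cons a l ih =>
      intro hl
      rw [List.nodup_cons] at hl
      obtain ⟨h1, h2⟩ := ih hl.2
      have hd : Perm.Disjoint (c a) (l.map c).prod := by
        rintro ⟨k, j⟩
        by_cases hk : k = a
        · subst hk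
          right
          rw [h1, if_neg hl.1]
        · left
          exact hc2 a k j hk
      refine ⟨?_, ?_⟩
      · rintro ⟨k, j⟩
        rw [List.map_cons, List.prod_cons, Perm.mul_apply, h1]
        by_cases hk : k = a
        · subst hk
          rw [if_neg hl.1, if_pos (List.mem_cons_self ..), hc1]
        · by_cases hkl : k ∈ l
          · rw [if_pos hkl, if_pos (List.mem_cons_of_mem _ hkl), hc2 a _ _ hk]
          · rw [if_neg hkl, if_neg (by
              rw [List.mem_cons]
              rintro (h3 | h3)
              · exact hk h3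
              · exact hkl h3), hc2 a _ _ hk]
      · rw [List.map_cons, List.prod_cons, ind_mul_eq hd, h2, hc3, List.length_cons]
        ring
  obtain ⟨h1, h2⟩ := key (List.finRange m) (List.nodup_finRange m)
  have h3 : π = ((List.finRange m).map c).prod := by
    ext1 ⟨k, j⟩
    rw [h1, if_pos (List.mem_finRange _), h]
  rw [h3, h2, List.length_finRange]

theorem dvd_of_free {p : ℕ} (hp : p.Prime) (h : Perm (Fin p)) (hh : h ≠ 1)
    (hf : ∀ (k : ℕ) (j : Fin p), (h ^ k) j = j → h ^ k = 1) (k : ℕ) (j : Fin p)
    (hk : (h ^ k) j = j) : p ∣ k := by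
  have h1 : orderOf h ∣ k := orderOf_dvd_of_pow_eq_one (hf k j hk)
  have h2 : ∀ c ∈ h.cycleType, c = orderOf h := by
    intro c hc
    obtain ⟨x, hx⟩ := exists_fix hc
    exact Nat.dvd_antisymm (Perm.dvd_of_mem_cycleType hc) (orderOf_dvd_of_pow_eq_one (hf c x hx))
  have h3 : h.cycleType.sum = Multiset.card h.cycleType * orderOf h := by
    have h4 : h.cycleType = Multiset.replicate (Multiset.card h.cycleType) (orderOf h) :=
      Multiset.eq_replicate.2 ⟨rfl, h2⟩
    conv_lhs => rw [h4]
    rw [Multiset.sum_replicate, smul_eq_mul]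
  have h5 : h.support = Finset.univ := by
    ext x
    simp only [Perm.mem_support, Finset.mem_univ, iff_true]
    intro hx
    have h6 := hf 1 x (by rw [pow_one]; exact hx)
    rw [pow_one] at h6
    exact hh h6
  rw [Perm.sum_cycleType, h5, Finset.card_univ, Fintype.card_fin] at h3
  have h6 : orderOf h ∣ p := ⟨_, h3.trans (mul_comm _ _)⟩
  rcases (Nat.dvd_prime hp).1 h6 with h7 | h7
  · exact absurd (orderOf_eq_one_iff.1 h7) hh
  · rw [← h7]
    exact h1

theorem ind_prod {p n : ℕ} (hp : p.Prime) (hnp : n ≤ p) (π : Perm (Fin p × Fin n))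
    (h : Perm (Fin p)) (g : Perm (Fin n)) (hπ : ∀ i j, π (i, j) = (h i, g j)) (hπ1 : π ≠ 1)
    (hf : ∀ (k : ℕ) (j : Fin p), (h ^ k) j = j → h ^ k = 1) (q : ℕ) (hq : g ≠ 1 → q ≤ indT g)
    (hqn : q + 1 ≤ n) : p * q ≤ indT π := by
  by_cases hh : h = 1
  · subst hh
    have h1 : indT π = p * indT g := ind_same g π hπ
    have hg : g ≠ 1 := by
      rintro rfl
      apply hπ1
      ext1 ⟨i, j⟩
      exact hπ i j
    rw [h1]
    exact Nat.mul_le_mul_left _ (hq hg)
  · have h1 : ∀ c ∈ π.cycleType, p ≤ c := by
      intro c hc
      obtain ⟨⟨i, j⟩, hx⟩ := exists_fix hc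
      have h2 : ∀ (k : ℕ) (i : Fin p) (j : Fin n), ((π ^ k) (i, j)).1 = (h ^ k) i := by
        intro k
        induction k with
        | zero => intro i j; rfl
        | succ k ih => intro i j; rw [pow_succ, pow_succ, Perm.mul_apply, hπ, ih, Perm.mul_apply]
      have h3 : (h ^ c) i = i := by rw [← h2 c i j, hx]
      have h4 := dvd_of_free hp h hh hf c i h3
      have h5 := Perm.two_le_of_mem_cycleType hc
      exact Nat.le_of_dvd (by omega) h4
    have h2 : Multiset.card π.cycleType * p ≤ π.cycleType.sum := by
      have h3 := Multiset.card_nsmul_le_sum (s := π.cycleType) (a := p) h1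
      simpa using h3
    have h3 : π.cycleType.sum = p * n := by
      rw [Perm.sum_cycleType]
      have h4 : π.support = Finset.univ := by
        ext ⟨i, j⟩
        simp only [Perm.mem_support, Finset.mem_univ, iff_true]
        intro hx
        rw [hπ] at hx
        have h6 := hf 1 i (by rw [pow_one]; exact congrArg Prod.fst hx)
        rw [pow_one] at h6
        exact hh h6
      rw [h4, Finset.card_univ, Fintype.card_prod, Fintype.card_fin, Fintype.card_fin]
    have h4 : Multiset.card π.cycleType ≤ n := by
      rw [h3, mul_comm p n] at h2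
      exact Nat.le_of_mul_le_mul_right h2 hp.pos
    have h5 : p * q + p ≤ p * n := by
      calc p * q + p = p * (q + 1) := by ring
        _ ≤ p * n := Nat.mul_le_mul_left _ hqn
    unfold indT
    rw [h3]
    omega

end Pool.Agent.Q52.WM
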