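import Pool.Agent.Q52.WM.Gen
import Pool.Agent.Q52.WM.Prod

/-!
# The compositum with a Galois extension of large prime degree
-/

set_option autoImplicit false

namespace Pool.Agent.Q52.WM

open Equiv

/-- the Galois group with homomorphisms of rings -/
def HasGpR (Ω L : Type*) [Field Ω] [Field L] {n : ℕ} (G : Subgroup (Perm (Fin n))) : Prop :=
  ∃ e : (L →+* Ω) ≃ Fin n, ∀ π : Perm (Fin n),
    π ∈ G ↔ ∃ σ : Ω ≃+* Ω, ∀ φ : L →+* Ω, e ((σ : Ω →+* Ω).comp φ) = π (e φ)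

theorem hasGp_iff_ring {Ω L : Type*} [Field Ω] [Algebra ℚ Ω] [Field L] [Algebra ℚ L] {n : ℕ}
    {G : Subgroup (Perm (Fin n))} : HasGp ℚ Ω L G ↔ HasGpR Ω L G := by
  constructor
  · rintro ⟨e, he⟩
    refine ⟨(RingHom.equivRatAlgHom L Ω).trans e, fun π => ?_⟩
    rw [he]
    constructor
    · rintro ⟨σ, hσ⟩
      refine ⟨σ.toRingEquiv, fun φ => ?_⟩
      rw [Equiv.trans_apply, Equiv.trans_apply, ← hσ]
      rfl
    · rintro ⟨σ, hσ⟩
      refine ⟨AlgEquiv.ofRingEquiv (f := σ) (fun q => ?_), fun φ => ?_⟩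
      · rw [eq_ratCast (algebraMap ℚ Ω), map_ratCast]
      · have h := hσ (φ : L →+* Ω)
        rw [Equiv.trans_apply, Equiv.trans_apply] at h
        exact h
  · rintro ⟨e, he⟩
    refine ⟨(RingHom.equivRatAlgHom L Ω).symm.trans e, fun π => ?_⟩
    rw [he]
    constructor
    · rintro ⟨σ, hσ⟩
      refine ⟨AlgEquiv.ofRingEquiv (f := σ) (fun q => ?_), fun φ => ?_⟩
      · rw [eq_ratCast (algebraMap ℚ Ω), map_ratCast]
      · have h := hσ (φ : L →+* Ω)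
        rw [Equiv.trans_apply, Equiv.trans_apply]
        exact h
    · rintro ⟨σ, hσ⟩
      refine ⟨σ.toRingEquiv, fun φ => ?_⟩
      have h := hσ (RingHom.equivRatAlgHom L Ω φ)
      rw [Equiv.trans_apply, Equiv.trans_apply, Equiv.symm_apply_apply] at h
      exact h

section

attribute [-instance] DivisionRing.toRatAlgebra

variable {Ω : Type} [Field Ω] [Algebra ℚ Ω]

theorem ext_sup (L F : IntermediateField ℚ Ω) (φ ψ : ↥(L ⊔ F) →+* Ω)
    (h1 : ∀ (x : Ω) (hx : x ∈ L), φ ⟨x, (le_sup_left : L ≤ L ⊔ F) hx⟩ =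
      ψ ⟨x, (le_sup_left : L ≤ L ⊔ F) hx⟩)
    (h2 : ∀ (x : Ω) (hx : x ∈ F), φ ⟨x, (le_sup_right : F ≤ L ⊔ F) hx⟩ =
      ψ ⟨x, (le_sup_right : F ≤ L ⊔ F) hx⟩) : φ = ψ := by
  let S : Subfield Ω := (φ.eqLocusField ψ).map (algebraMap ↥(L ⊔ F) Ω)
  let T : IntermediateField ℚ Ω := S.toIntermediateField (fun q => by
    rw [eq_ratCast (algebraMap ℚ Ω)]
    exact SubfieldClass.ratCast_mem S q)
  have h3 : L ⊔ F ≤ T := by
    refine sup_le ?_ ?_
    · intro x hx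
      exact ⟨⟨x, (le_sup_left : L ≤ L ⊔ F) hx⟩, h1 x hx, rfl⟩
    · intro x hx
      exact ⟨⟨x, (le_sup_right : F ≤ L ⊔ F) hx⟩, h2 x hx, rfl⟩
  ext x
  obtain ⟨y, hy, hyx⟩ := h3 x.2
  have h4 : y = x := Subtype.ext hyx
  rw [← h4]
  exact hy

theorem free_of_normal (F : IntermediateField ℚ Ω) [Normal ℚ F] (σ : Ω ≃+* Ω) (φ φ' : F →+* Ω)
    (h : (σ : Ω →+* Ω).comp φ = φ) : (σ : Ω →+* Ω).comp φ' = φ' := by
  ext x
  have h1 : (φ.toRatAlgHom).fieldRange = F := AlgHom.fieldRange_of_normal _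
  have h2 : (φ'.toRatAlgHom).fieldRange = F := AlgHom.fieldRange_of_normal _
  have h3 : φ' x ∈ (φ.toRatAlgHom).fieldRange := by
    rw [h1.trans h2.symm]
    exact ⟨x, rfl⟩
  obtain ⟨y, hy⟩ := h3
  have hy' : φ y = φ' x := hy
  change σ (φ' x) = φ' x
  rw [← hy']
  exact RingHom.congr_fun h y

end

end Pool.Agent.Q52.WM
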