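import Mathlib

/-!
# Definitions for the counting of number fields by Galois group
-/

set_option autoImplicit false

namespace Pool.Agent.Q52.WM

open Equiv

/-- The index of a permutation: `n` minus the number of its cycles, fixed points included. -/
def ind {n : ℕ} (g : Perm (Fin n)) : ℕ := g.cycleType.sum - Multiset.card g.cycleType

/-- `a(G) = 1 / min ind(g)`, the minimum over the `g ≠ 1` in `G`. -/
noncomputable def a {n : ℕ} (G : Subgroup (Perm (Fin n))) : ℝ :=
  1 / (sInf {j : ℕ | ∃ g ∈ G, g ≠ 1 ∧ j = ind g} : ℕ)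

/-- `G` is transitive. -/
def Transitive {n : ℕ} (G : Subgroup (Perm (Fin n))) : Prop := ∀ i j : Fin n, ∃ g ∈ G, g i = j

/-- `G` is, up to numbering, the Galois group of `L` over `k`, acting on the embeddings of `L` in
the algebraic closure of `k`. -/
def IsGroupOf (k L : Type) [Field k] [Field L] [Algebra k L] {n : ℕ}
    (G : Subgroup (Perm (Fin n))) : Prop :=
  ∃ e : (L →ₐ[k] AlgebraicClosure k) ≃ Fin n, ∀ π : Perm (Fin n),
    π ∈ G ↔ ∃ σ : AlgebraicClosure k ≃ₐ[k] AlgebraicClosure k,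
      ∀ φ : L →ₐ[k] AlgebraicClosure k, e (σ.toAlgHom.comp φ) = π (e φ)

/-- The fields `L` between `K` and its algebraic closure, of degree `n` over `K`, with Galois group
`G` (up to numbering), whose relative discriminant has norm at most `X`, that is,
`|d_L| ≤ X |d_K| ^ n`. -/
def Fields (K : Type) [Field K] [NumberField K] (n : ℕ) (G : Subgroup (Perm (Fin n))) (X : ℝ) :
    Set (IntermediateField K (AlgebraicClosure K)) :=
  {L | Module.finrank K L = n ∧ IsGroupOf K L G ∧ ∃ h : NumberField L,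
    ((|@NumberField.discr L _ h| : ℤ) : ℝ) ≤ X * ((|NumberField.discr K| : ℤ) : ℝ) ^ n}

/-- `N_{n,K}(X; G)` -/
noncomputable def N (K : Type) [Field K] [NumberField K] (n : ℕ) (G : Subgroup (Perm (Fin n)))
    (X : ℝ) : ℕ := (Fields K n G X).ncard

/-- `G' ≤ S_d` is, up to numbering, contained in the wreath product `G ≀ H` of `G ≤ S_n` and
`H ≤ S_m`: its elements are the permutations `(i, j) ↦ (s i, g_i j)` of `{1..m} × {1..n}` with `s` in
`H` and all `g_i` in `G` (for some of the pairs `(s, g)`). -/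
def InWreath {m n d : ℕ} (G : Subgroup (Perm (Fin n))) (H : Subgroup (Perm (Fin m)))
    (G' : Subgroup (Perm (Fin d))) : Prop :=
  ∃ f : Fin d ≃ Fin m × Fin n, ∀ π ∈ G', ∃ s ∈ H, ∃ g : Fin m → Perm (Fin n),
    (∀ i, g i ∈ G) ∧ ∀ x, f (π x) = (s (f x).1, g (f x).1 (f x).2)

/-- the transitive subgroups of `S_{mn}` which are contained in `G ≀ H` up to numbering -/
def Wreath {m n : ℕ} (G : Subgroup (Perm (Fin n))) (H : Subgroup (Perm (Fin m))) :
    Set (Subgroup (Perm (Fin (m * n)))) := {G' | Transitive G' ∧ InWreath G H G'}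

/-- the product `G × C ≤ S_{pn}` of `G ≤ S_n` and `C ≤ S_p` with its action on
`{1..p} × {1..n}` -/
def Direct {p n : ℕ} (G : Subgroup (Perm (Fin n))) (C : Subgroup (Perm (Fin p))) :
    Subgroup (Perm (Fin (p * n))) where
  carrier := {π | ∃ h ∈ C, ∃ g ∈ G, ∀ x, finProdFinEquiv.symm (π x) =
    (h (finProdFinEquiv.symm x).1, g (finProdFinEquiv.symm x).2)}
  mul_mem' := by
    rintro π ρ ⟨h, hh, g, hg, h1⟩ ⟨h', hh', g', hg', h2⟩
    refine ⟨h * h', C.mul_mem hh hh', g * g', G.mul_mem hg hg', fun x => ?_⟩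
    rw [Perm.mul_apply, h1, h2]
    rfl
  one_mem' := ⟨1, C.one_mem, 1, G.one_mem, fun x => rfl⟩
  inv_mem' := by
    rintro π ⟨h, hh, g, hg, h1⟩
    refine ⟨h⁻¹, C.inv_mem hh, g⁻¹, G.inv_mem hg, fun x => ?_⟩
    have h2 := h1 (π⁻¹ x)
    have h3 : π (π⁻¹ x) = x := Equiv.apply_symm_apply π x
    rw [h3] at h2
    rw [h2]
    exact Prod.ext (Equiv.symm_apply_apply h _).symm (Equiv.symm_apply_apply g _).symm

/-- The upper half of the weak form of Malle's conjecture for `(K, G)`. -/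
def Upper (K : Type) [Field K] [NumberField K] (n : ℕ) (G : Subgroup (Perm (Fin n))) : Prop :=
  ∀ ε : ℝ, 0 < ε → ∃ c : ℝ, 0 < c ∧ ∃ X₀ : ℝ, ∀ X : ℝ, X₀ ≤ X →
    (N K n G X : ℝ) < c * X ^ (a G + ε)

/-- The lower half of the weak form of Malle's conjecture for `(K, G)`. -/
def Lower (K : Type) [Field K] [NumberField K] (n : ℕ) (G : Subgroup (Perm (Fin n))) : Prop :=
  ∃ c : ℝ, 0 < c ∧ ∃ X₀ : ℝ, ∀ X : ℝ, X₀ ≤ X → c * X ^ a G ≤ N K n G X

end Pool.Agent.Q52.WM
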