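import Pool.Agent.Q52.WM.Perm
import Pool.Agent.Q52.WM.Defs

/-!
# `a(G') ≤ a(G)` for the transitive subgroups `G'` of `G ≀ H`
-/

set_option autoImplicit false

namespace Pool.Agent.Q52.WM

open Equiv

/-- the least index -/
noncomputable def mi {n : ℕ} (G : Subgroup (Perm (Fin n))) : ℕ :=
  sInf {j : ℕ | ∃ g ∈ G, g ≠ 1 ∧ j = ind g}

theorem exists_ne_one {n : ℕ} (hn : 2 ≤ n) {G : Subgroup (Perm (Fin n))} (hG : Transitive G) :
    ∃ g ∈ G, g ≠ 1 := by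
  obtain ⟨g, h1, h2⟩ := hG ⟨0, by omega⟩ ⟨1, by omega⟩
  refine ⟨g, h1, fun h => ?_⟩
  subst h
  simp at h2

theorem mi_mem {n : ℕ} (hn : 2 ≤ n) {G : Subgroup (Perm (Fin n))} (hG : Transitive G) :
    ∃ g ∈ G, g ≠ 1 ∧ mi G = ind g := by
  obtain ⟨g, h1, h2⟩ := exists_ne_one hn hG
  exact Nat.sInf_mem (s := {j : ℕ | ∃ g ∈ G, g ≠ 1 ∧ j = ind g}) ⟨ind g, g, h1, h2, rfl⟩

theorem mi_le {n : ℕ} {G : Subgroup (Perm (Fin n))} {g : Perm (Fin n)} (h1 : g ∈ G) (h2 : g ≠ 1) :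
    mi G ≤ ind g := Nat.sInf_le ⟨g, h1, h2, rfl⟩

theorem mi_pos {n : ℕ} (hn : 2 ≤ n) {G : Subgroup (Perm (Fin n))} (hG : Transitive G) :
    1 ≤ mi G := by
  obtain ⟨g, -, h1, h2⟩ := mi_mem hn hG
  rw [h2]
  exact one_le_ind h1

theorem mi_lt {n : ℕ} (hn : 2 ≤ n) {G : Subgroup (Perm (Fin n))} (hG : Transitive G) :
    mi G < n := by
  obtain ⟨g, -, h1, h2⟩ := mi_mem hn hG
  rw [h2]
  have h := ind_lt h1
  rw [Fintype.card_fin] at h
  exact h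

theorem mi_le_wreath {m n d : ℕ} (hn : 2 ≤ n) (hd : 2 ≤ d) {G : Subgroup (Perm (Fin n))}
    {H : Subgroup (Perm (Fin m))} {G' : Subgroup (Perm (Fin d))} (hG : Transitive G)
    (hG' : Transitive G') (h : InWreath G H G') : mi G ≤ mi G' := by
  obtain ⟨π, h1, h2, h3⟩ := mi_mem hd hG'
  obtain ⟨f, hf⟩ := h
  obtain ⟨s, -, g, hg, hπ⟩ := hf π h1
  rw [h3]
  have h4 : indT (f.permCongr π) = ind π := ind_permCongr f π
  rw [← h4]
  refine ind_wreath (f.permCongr π) s g (fun i j => ?_) (fun hc => h2 ?_) _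
    (fun i hi => mi_le (hg i) hi) (mi_lt hn hG).le
  · rw [Equiv.permCongr_apply, hπ, Equiv.apply_symm_apply]
  · ext1 x
    have h5 := congrArg (fun p : Perm (Fin m × Fin n) => f.symm (p (f x))) hc
    simpa [Equiv.permCongr_apply] using h5

theorem a_le {m n d : ℕ} (hn : 2 ≤ n) (hd : 2 ≤ d) {G : Subgroup (Perm (Fin n))}
    {H : Subgroup (Perm (Fin m))} {G' : Subgroup (Perm (Fin d))} (hG : Transitive G)
    (hG' : Transitive G') (h : InWreath G H G') : a G' ≤ a G := by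
  have h1 := mi_le_wreath hn hd hG hG' h
  have h2 := mi_pos hn hG
  change 1 / ((mi G' : ℕ) : ℝ) ≤ 1 / ((mi G : ℕ) : ℝ)
  have h3 : (1 : ℝ) ≤ (mi G : ℕ) := by exact_mod_cast h2
  exact one_div_le_one_div_of_le (by linarith) (by exact_mod_cast h1)

end Pool.Agent.Q52.WM
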