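import Pool.Agent.Q52.WM.Comp
import Pool.Agent.Q52.WM.Ineq

/-!
# The Galois group of the compositum
-/

set_option autoImplicit false

namespace Pool.Agent.Q52.WM

open Equiv

/-- `G''` is contained in the product of `G` and `C` up to numbering, where `C` acts freely -/
def Good {p n d : ℕ} (G : Subgroup (Perm (Fin n))) (C : Subgroup (Perm (Fin p)))
    (G'' : Subgroup (Perm (Fin d))) : Prop :=
  ∃ f : Fin d ≃ Fin p × Fin n, ∀ π ∈ G'', ∃ h ∈ C, ∃ g ∈ G,
    (∀ (k : ℕ) (j : Fin p), (h ^ k) j = j → h ^ k = 1) ∧ ∀ x, f (π x) = (h (f x).1, g (f x).2)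

theorem Good.inWreath {p n d : ℕ} {G : Subgroup (Perm (Fin n))} {C : Subgroup (Perm (Fin p))}
    {G'' : Subgroup (Perm (Fin d))} (h : Good G C G'') : InWreath G C G'' := by
  obtain ⟨f, hf⟩ := h
  refine ⟨f, fun π hπ => ?_⟩
  obtain ⟨h, hh, g, hg, -, h2⟩ := hf π hπ
  exact ⟨h, hh, fun _ => g, fun _ => hg, h2⟩

theorem Good.mi_le {p n d : ℕ} (hp : p.Prime) (hn : 2 ≤ n) (hnp : n ≤ p) (hd : 2 ≤ d)
    {G : Subgroup (Perm (Fin n))} {C : Subgroup (Perm (Fin p))} {G'' : Subgroup (Perm (Fin d))}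
    (hG : Transitive G) (hG'' : Transitive G'') (h : Good G C G'') : p * mi G ≤ mi G'' := by
  obtain ⟨π, h1, h2, h3⟩ := mi_mem hd hG''
  obtain ⟨f, hf⟩ := h
  obtain ⟨s, -, g, hg, hs, hπ⟩ := hf π h1
  rw [h3]
  have h4 : indT (f.permCongr π) = ind π := ind_permCongr f π
  rw [← h4]
  refine ind_prod hp hnp (f.permCongr π) s g (fun i j => ?_) (fun hc => h2 ?_) hs _
    (fun hi => WM.mi_le hg hi) (mi_lt hn hG)
  · rw [Equiv.permCongr_apply, hπ, Equiv.apply_symm_apply]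
  · ext1 x
    have h5 := congrArg (fun p : Perm (Fin p × Fin n) => f.symm (p (f x))) hc
    simpa [Equiv.permCongr_apply] using h5

section

attribute [-instance] DivisionRing.toRatAlgebra

variable {Ω : Type} [Field Ω] [Algebra ℚ Ω]

theorem comp_group {p n : ℕ} (L F : IntermediateField ℚ Ω) [Normal ℚ F]
    {G : Subgroup (Perm (Fin n))} (hL : HasGpR Ω L G) {C : Subgroup (Perm (Fin p))}
    (hF : HasGpR Ω F C) (hfin : Finite (↥(L ⊔ F) →+* Ω))
    (hcard : Nat.card (↥(L ⊔ F) →+* Ω) = p * n) :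
    ∃ G'' : Subgroup (Perm (Fin (p * n))), HasGpR Ω ↥(L ⊔ F) G'' ∧ Good G C G'' ∧
      (∀ π ∈ G'', ∃ h ∈ C, ∃ g ∈ G, ∀ x, finProdFinEquiv.symm (π x) =
        (h (finProdFinEquiv.symm x).1, g (finProdFinEquiv.symm x).2)) ∧
      (∀ h ∈ C, ∃ π ∈ G'', ∃ g ∈ G, ∀ x, finProdFinEquiv.symm (π x) =
        (h (finProdFinEquiv.symm x).1, g (finProdFinEquiv.symm x).2)) ∧
      (∀ g ∈ G, ∃ π ∈ G'', ∃ h ∈ C, ∀ x, finProdFinEquiv.symm (π x) =
        (h (finProdFinEquiv.symm x).1, g (finProdFinEquiv.symm x).2)) := by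
  obtain ⟨eL, heL⟩ := hL
  obtain ⟨eF, heF⟩ := hF
  let iL : L →+* ↥(L ⊔ F) := (IntermediateField.inclusion (le_sup_left : L ≤ L ⊔ F) : _ →+* _)
  let iF : F →+* ↥(L ⊔ F) := (IntermediateField.inclusion (le_sup_right : F ≤ L ⊔ F) : _ →+* _)
  let r : (↥(L ⊔ F) →+* Ω) → (F →+* Ω) × (L →+* Ω) := fun φ => (φ.comp iF, φ.comp iL)
  have hr1 : Function.Injective r := by
    intro φ ψ h
    refine ext_sup L F φ ψ (fun x hx => ?_) (fun x hx => ?_)
    · exact RingHom.congr_fun (congrArg Prod.snd h) ⟨x, hx⟩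
    · exact RingHom.congr_fun (congrArg Prod.fst h) ⟨x, hx⟩
  have hfF : Finite (F →+* Ω) := Finite.of_equiv _ eF.symm
  have hfL : Finite (L →+* Ω) := Finite.of_equiv _ eL.symm
  have hr : Function.Bijective r := by
    rw [Nat.bijective_iff_injective_and_card]
    refine ⟨hr1, ?_⟩
    rw [hcard, Nat.card_prod, Nat.card_congr eF, Nat.card_congr eL, Nat.card_fin, Nat.card_fin]
  let f : (↥(L ⊔ F) →+* Ω) ≃ Fin p × Fin n :=
    (Equiv.ofBijective r hr).trans (eF.prodCongr eL)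
  let e : (↥(L ⊔ F) →+* Ω) ≃ Fin (p * n) := f.trans finProdFinEquiv
  let G'' : Subgroup (Perm (Fin (p * n))) :=
    { carrier := {π | ∃ σ : Ω ≃+* Ω, ∀ φ, e ((σ : Ω →+* Ω).comp φ) = π (e φ)}
      mul_mem' := by
        rintro a b ⟨σ, hσ⟩ ⟨τ, hτ⟩
        refine ⟨τ.trans σ, fun φ => ?_⟩
        rw [Perm.mul_apply, ← hτ, ← hσ]
        rfl
      one_mem' := ⟨RingEquiv.refl Ω, fun φ => rfl⟩
      inv_mem' := by
        rintro a ⟨σ, hσ⟩
        refine ⟨σ.symm, fun φ => ?_⟩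
        rw [Perm.eq_inv_iff_eq, ← hσ]
        congr 1
        ext x
        simp }
  let aF : (Ω ≃+* Ω) → Perm (F →+* Ω) := fun σ =>
    { toFun := fun φ => (σ : Ω →+* Ω).comp φ
      invFun := fun φ => (σ.symm : Ω →+* Ω).comp φ
      left_inv := fun φ => by ext x; simp
      right_inv := fun φ => by ext x; simp }
  let aL : (Ω ≃+* Ω) → Perm (L →+* Ω) := fun σ =>
    { toFun := fun φ => (σ : Ω →+* Ω).comp φ
      invFun := fun φ => (σ.symm : Ω →+* Ω).comp φ
      left_inv := fun φ => by ext x; simp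
      right_inv := fun φ => by ext x; simp }
  let aN : (Ω ≃+* Ω) → Perm (↥(L ⊔ F) →+* Ω) := fun σ =>
    { toFun := fun φ => (σ : Ω →+* Ω).comp φ
      invFun := fun φ => (σ.symm : Ω →+* Ω).comp φ
      left_inv := fun φ => by ext x; simp
      right_inv := fun φ => by ext x; simp }
  have hmF : ∀ σ, eF.permCongr (aF σ) ∈ C := fun σ => (heF _).2 ⟨σ, fun φ => by
    rw [Equiv.permCongr_apply, Equiv.symm_apply_apply]
    rfl⟩
  have hmL : ∀ σ, eL.permCongr (aL σ) ∈ G := fun σ => (heL _).2 ⟨σ, fun φ => by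
    rw [Equiv.permCongr_apply, Equiv.symm_apply_apply]
    rfl⟩
  have hmN : ∀ σ, e.permCongr (aN σ) ∈ G'' := fun σ => ⟨σ, fun φ => by
    rw [Equiv.permCongr_apply, Equiv.symm_apply_apply]
    rfl⟩
  have form : ∀ (σ : Ω ≃+* Ω) (π : Perm (Fin (p * n))),
      (∀ φ, e ((σ : Ω →+* Ω).comp φ) = π (e φ)) → ∀ x, finProdFinEquiv.symm (π x) =
        (eF.permCongr (aF σ) (finProdFinEquiv.symm x).1,
          eL.permCongr (aL σ) (finProdFinEquiv.symm x).2) := by
    intro σ π hσ x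
    have h1 := hσ (e.symm x)
    rw [Equiv.apply_symm_apply] at h1
    rw [← h1]
    have h2 : ∀ φ, f ((σ : Ω →+* Ω).comp φ) =
        (eF.permCongr (aF σ) (f φ).1, eL.permCongr (aL σ) (f φ).2) := by
      intro φ
      refine Prod.ext ?_ ?_
      · change eF ((σ : Ω →+* Ω).comp (φ.comp iF)) = eF.permCongr (aF σ) (eF (φ.comp iF))
        rw [Equiv.permCongr_apply, Equiv.symm_apply_apply]
        rfl
      · change eL ((σ : Ω →+* Ω).comp (φ.comp iL)) = eL.permCongr (aL σ) (eL (φ.comp iL))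
        rw [Equiv.permCongr_apply, Equiv.symm_apply_apply]
        rfl
    have h3 : f (e.symm x) = finProdFinEquiv.symm x := by
      change f (f.symm (finProdFinEquiv.symm x)) = _
      rw [Equiv.apply_symm_apply]
    rw [← h3, ← h2]
    change finProdFinEquiv.symm (finProdFinEquiv (f _)) = _
    rw [Equiv.symm_apply_apply]
  have hfree : ∀ σ, ∀ (k : ℕ) (j : Fin p), ((eF.permCongr (aF σ)) ^ k) j = j →
      (eF.permCongr (aF σ)) ^ k = 1 := by
    intro σ
    have hpow : ∀ k : ℕ, ∃ τ : Ω ≃+* Ω, ∀ φ, (aF σ ^ k) φ = (τ : Ω →+* Ω).comp φ := by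
      intro k
      induction k with
      | zero => exact ⟨RingEquiv.refl Ω, fun φ => rfl⟩
      | succ k ih =>
        obtain ⟨τ, hτ⟩ := ih
        refine ⟨τ.trans σ, fun φ => ?_⟩
        rw [pow_succ', Perm.mul_apply, hτ]
        rfl
    have hconj : ∀ k : ℕ, (eF.permCongr (aF σ)) ^ k = eF.permCongr (aF σ ^ k) := by
      intro k
      induction k with
      | zero =>
        ext1 x
        simp [Equiv.permCongr_apply]
      | succ k ih =>
        rw [pow_succ, pow_succ, ih]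
        ext1 x
        simp [Equiv.permCongr_apply]
    intro k j hk
    rw [hconj] at hk ⊢
    obtain ⟨τ, hτ⟩ := hpow k
    rw [Equiv.permCongr_apply] at hk
    have h1 : (aF σ ^ k) (eF.symm j) = eF.symm j := by
      apply eF.injective
      rw [hk, Equiv.apply_symm_apply]
    rw [hτ] at h1
    ext1 x
    rw [Equiv.permCongr_apply, hτ, free_of_normal F τ (eF.symm j) (eF.symm x) h1,
      Equiv.apply_symm_apply, Perm.one_apply]
  refine ⟨G'', ⟨e, fun _ => Iff.rfl⟩, ⟨finProdFinEquiv.symm, ?_⟩, ?_, ?_, ?_⟩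
  · rintro π ⟨σ, hσ⟩
    exact ⟨_, hmF σ, _, hmL σ, hfree σ, form σ π hσ⟩
  · rintro π ⟨σ, hσ⟩
    exact ⟨_, hmF σ, _, hmL σ, form σ π hσ⟩
  · intro h hh
    obtain ⟨σ, hσ⟩ := (heF h).1 hh
    have h1 : h = eF.permCongr (aF σ) := by
      ext1 x
      obtain ⟨φ, rfl⟩ := eF.surjective x
      rw [← hσ, Equiv.permCongr_apply, Equiv.symm_apply_apply]
      rfl
    refine ⟨_, hmN σ, _, hmL σ, ?_⟩
    rw [h1]
    exact form σ _ (fun φ => by
      rw [Equiv.permCongr_apply, Equiv.symm_apply_apply]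
      rfl)
  · intro g hg
    obtain ⟨σ, hσ⟩ := (heL g).1 hg
    have h1 : g = eL.permCongr (aL σ) := by
      ext1 x
      obtain ⟨φ, rfl⟩ := eL.surjective x
      rw [← hσ, Equiv.permCongr_apply, Equiv.symm_apply_apply]
      rfl
    refine ⟨_, hmN σ, _, hmF σ, ?_⟩
    rw [h1]
    exact form σ _ (fun φ => by
      rw [Equiv.permCongr_apply, Equiv.symm_apply_apply]
      rfl)

end

end Pool.Agent.Q52.WM
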