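import Pool.Agent.Q265.BD.D
import Pool.Agent.Q52.WM.CompB

/-!
# Degree and discriminant of the compositum
-/

set_option autoImplicit false

namespace Pool.Agent.Q52.WM

open Equiv NumberField Polynomial

section

attribute [-instance] DivisionRing.toRatAlgebra

variable {Ω : Type} [Field Ω] [Algebra ℚ Ω]

theorem finrank_comp {p n : ℕ} (L F : IntermediateField ℚ Ω) [FiniteDimensional ℚ L]
    [FiniteDimensional ℚ F] (hL : Module.finrank ℚ L = n) (hF : Module.finrank ℚ F = p)
    (hc : Nat.Coprime p n) : Module.finrank ℚ ↥(L ⊔ F) = p * n := by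
  have h1 : n ∣ Module.finrank ℚ ↥(L ⊔ F) := by
    rw [← hL]
    exact IntermediateField.finrank_dvd_of_le_right le_sup_left
  have h2 : p ∣ Module.finrank ℚ ↥(L ⊔ F) := by
    rw [← hF]
    exact IntermediateField.finrank_dvd_of_le_right le_sup_right
  have h3 : Module.finrank ℚ ↥(L ⊔ F) ≤ n * p := by
    rw [← hL, ← hF]
    exact IntermediateField.finrank_sup_le L F
  have h4 : p * n ∣ Module.finrank ℚ ↥(L ⊔ F) := hc.mul_dvd_of_dvd_of_dvd h2 h1
  have h5 : 0 < Module.finrank ℚ ↥(L ⊔ F) := Module.finrank_pos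
  have h6 := Nat.le_of_dvd h5 h4
  rw [mul_comm] at h3
  omega

theorem sup_inj {p n : ℕ} (hp : p.Prime) (hnp : n < p) (L L' F : IntermediateField ℚ Ω)
    [FiniteDimensional ℚ L] [FiniteDimensional ℚ L'] [FiniteDimensional ℚ F]
    (hL : Module.finrank ℚ L = n) (hL' : Module.finrank ℚ L' = n) (hF : Module.finrank ℚ F = p)
    (h : L ⊔ F = L' ⊔ F) : L = L' := by
  have hn : 0 < n := by
    rw [← hL]
    exact Module.finrank_pos
  have hc : Nat.Coprime p n := (Nat.Prime.coprime_iff_not_dvd hp).2 (fun hd => absurd (Nat.le_of_dvd hn hd) (by omega))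
  have h1 := finrank_comp L F hL hF hc
  have h2 : L ⊔ L' ≤ L ⊔ F := sup_le le_sup_left (by rw [h]; exact le_sup_left)
  have h3 : Module.finrank ℚ ↥(L ⊔ L') ∣ p * n := by
    rw [← h1]
    exact IntermediateField.finrank_dvd_of_le_right h2
  have h4 : n ∣ Module.finrank ℚ ↥(L ⊔ L') := by
    conv_lhs => rw [← hL]
    exact IntermediateField.finrank_dvd_of_le_right le_sup_left
  have h5 : Module.finrank ℚ ↥(L ⊔ L') ≤ n * n := by
    conv_rhs => rw [← hL]
    conv_rhs =>
      rhs
      rw [hL, ← hL']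
    exact IntermediateField.finrank_sup_le L L'
  obtain ⟨t, ht⟩ := h4
  have h6 : t ∣ p := by
    rw [ht, mul_comm n t] at h3
    exact Nat.dvd_of_mul_dvd_mul_right hn h3
  have h7 : Module.finrank ℚ ↥(L ⊔ L') = n := by
    rcases (Nat.dvd_prime hp).1 h6 with h7 | h7
    · rw [ht, h7, mul_one]
    · exfalso
      rw [ht, h7] at h5
      have h8 := Nat.le_of_mul_le_mul_left h5 hn
      omega
  have h8 : L = L ⊔ L' :=
    IntermediateField.eq_of_le_of_finrank_eq le_sup_left (hL.trans h7.symm)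
  have h9 : L' = L ⊔ L' :=
    IntermediateField.eq_of_le_of_finrank_eq le_sup_right (hL'.trans h7.symm)
  rw [h8]
  exact h9.symm

end

end Pool.Agent.Q52.WM
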