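import Pool.Agent.Q52.WM.CompC

/-!
# The discriminant of the compositum
-/

set_option autoImplicit false

namespace Pool.Agent.Q52.WM

open Equiv NumberField Polynomial

section

attribute [-instance] DivisionRing.toRatAlgebra SubfieldClass.instSMulRat

variable {Ω : Type} [Field Ω] [Algebra ℚ Ω]

/-- the structure of an algebra over `L` on the compositum -/
@[reducible] def algL (L F : IntermediateField ℚ Ω) : Algebra L ↥(L ⊔ F) :=
  (IntermediateField.inclusion (le_sup_left : L ≤ L ⊔ F)).toRingHom.toAlgebra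

/-- the structure of an algebra over `F` on the compositum -/
@[reducible] def algF (L F : IntermediateField ℚ Ω) : Algebra F ↥(L ⊔ F) :=
  (IntermediateField.inclusion (le_sup_right : F ≤ L ⊔ F)).toRingHom.toAlgebra

theorem adjoin_top (L F : IntermediateField ℚ Ω) [FiniteDimensional ℚ F] (θ : F)
    (hθ : Algebra.adjoin ℚ {θ} = ⊤) :
    letI := algL L F
    letI := algF L F
    Algebra.adjoin L {algebraMap F ↥(L ⊔ F) θ} = ⊤ := by
  letI := algL L F
  letI := algF L F
  haveI t1 : IsScalarTower ℚ L ↥(L ⊔ F) := IsScalarTower.of_algebraMap_eq fun q => rfl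
  haveI t2 : IsScalarTower ℚ F ↥(L ⊔ F) := IsScalarTower.of_algebraMap_eq fun q => rfl
  let B : Subalgebra L ↥(L ⊔ F) := Algebra.adjoin L {algebraMap F ↥(L ⊔ F) θ}
  let T : Subalgebra ℚ Ω := (B.restrictScalars ℚ).map (L ⊔ F).val
  have hL : L.toSubalgebra ≤ T := by
    intro x hx
    exact ⟨algebraMap L ↥(L ⊔ F) ⟨x, hx⟩, B.algebraMap_mem _, rfl⟩
  have hF : F.toSubalgebra ≤ T := by
    intro x hx
    let S : Subalgebra ℚ F := (B.restrictScalars ℚ).comap (IsScalarTower.toAlgHom ℚ F ↥(L ⊔ F))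
    have h1 : Algebra.adjoin ℚ {θ} ≤ S := by
      rw [Algebra.adjoin_le_iff, Set.singleton_subset_iff]
      exact Algebra.subset_adjoin (Set.mem_singleton _)
    rw [hθ] at h1
    have h2 : (⟨x, hx⟩ : F) ∈ S := h1 Algebra.mem_top
    exact ⟨algebraMap F ↥(L ⊔ F) ⟨x, hx⟩, h2, rfl⟩
  have hN : (L ⊔ F).toSubalgebra ≤ T := by
    rw [IntermediateField.sup_toSubalgebra_of_isAlgebraic_right]
    exact sup_le hL hF
  rw [eq_top_iff]
  intro x _
  obtain ⟨y, hy, hyx⟩ := hN x.2
  have h3 : y = x := Subtype.ext hyx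
  rw [← h3]
  exact hy

theorem finrank_right {p n : ℕ} (L F : IntermediateField ℚ Ω) (hn : 0 < n)
    (hL : Module.finrank ℚ L = n) (hN : Module.finrank ℚ ↥(L ⊔ F) = p * n) :
    letI := algL L F
    Module.finrank L ↥(L ⊔ F) = p := by
  letI := algL L F
  haveI t1 : IsScalarTower ℚ L ↥(L ⊔ F) := IsScalarTower.of_algebraMap_eq fun q => rfl
  have h := Module.finrank_mul_finrank ℚ L ↥(L ⊔ F)
  rw [hL, hN, mul_comm p n] at h
  exact Nat.eq_of_mul_eq_mul_left hn h

end

/-- the degree does not depend on the structure of an algebra over `ℚ` -/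
theorem finrank_any {L : Type} [Field L] [CharZero L] (A : Algebra ℚ L) :
    @Module.finrank ℚ L _ _ A.toModule =
      @Module.finrank ℚ L _ _ (DivisionRing.toRatAlgebra : Algebra ℚ L).toModule := by
  obtain rfl : A = DivisionRing.toRatAlgebra := Subsingleton.elim _ _
  rfl

theorem adjoin_any {L : Type} [Field L] [CharZero L] (A : Algebra ℚ L) (θ : L)
    (h : Algebra.adjoin ℚ {θ} = ⊤) : @Algebra.adjoin ℚ L _ _ A {θ} = ⊤ := by
  obtain rfl : A = DivisionRing.toRatAlgebra := Subsingleton.elim _ _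
  exact h

theorem delta_ne {F : Type} [Field F] [NumberField F] (θ : 𝓞 F) :
    aeval θ (derivative (minpoly ℤ θ)) ≠ 0 := by
  have h1 : minpoly ℤ θ = minpoly ℤ (θ : F) :=
    (minpoly.algebraMap_eq (B' := F) RingOfIntegers.coe_injective θ).symm
  have h2 : minpoly ℚ (θ : F) = (minpoly ℤ (θ : F)).map (algebraMap ℤ ℚ) :=
    minpoly.isIntegrallyClosed_eq_field_fractions' ℚ (RingOfIntegers.isIntegral_coe θ)
  have hsep : (minpoly ℚ (θ : F)).Separable :=
    (minpoly.irreducible (Algebra.IsIntegral.isIntegral (θ : F))).separable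
  intro h
  have h3 : aeval (θ : F) (derivative (minpoly ℚ (θ : F))) = 0 := by
    rw [h2, derivative_map, aeval_map_algebraMap, ← h1]
    have h4 := congrArg (algebraMap (𝓞 F) F) h
    rw [← aeval_algebraMap_apply, map_zero] at h4
    exact h4
  exact hsep.aeval_derivative_ne_zero (minpoly.aeval ℚ (θ : F)) h3

end Pool.Agent.Q52.WM
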