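import Pool.Agent.Q52.WM.Gen
import Pool.Agent.Q52.WM.Ineq

/-!
# The inequality between the counts
-/

set_option autoImplicit false

namespace Pool.Agent.Q52.WM

open Equiv

/-- the counted fields, inside an algebraic closure `Ω` of `K` -/
def FieldsIn (K Ω : Type) [Field K] [NumberField K] [Field Ω] [Algebra K Ω] (n : ℕ)
    (G : Subgroup (Perm (Fin n))) (X : ℝ) : Set (IntermediateField K Ω) :=
  {L | Module.finrank K L = n ∧ HasGp K Ω L G ∧ ∃ h : NumberField L,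
    ((|@NumberField.discr L _ h| : ℤ) : ℝ) ≤ X * ((|NumberField.discr K| : ℤ) : ℝ) ^ n}

theorem fieldsIn_eq (K : Type) [Field K] [NumberField K] (n : ℕ)
    (G : Subgroup (Perm (Fin n))) (X : ℝ) :
    FieldsIn K (AlgebraicClosure K) n G X = Fields K n G X := rfl

theorem fields_finite (Ω : Type) [Field Ω] [CharZero Ω] [A : Algebra ℚ Ω] (d : ℕ)
    (G' : Subgroup (Perm (Fin d))) (Y : ℝ) : (FieldsIn ℚ Ω d G' Y).Finite := by
  obtain rfl : A = DivisionRing.toRatAlgebra := Subsingleton.elim _ _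
  obtain ⟨B, hB⟩ := exists_nat_gt Y
  have h1 := NumberField.finite_of_discr_bdd Ω B
  refine (h1.image Subtype.val).subset ?_
  rintro L ⟨-, -, h, h2⟩
  refine ⟨⟨L, h.to_finiteDimensional⟩, ?_, rfl⟩
  rw [Rat.numberField_discr] at h2
  simp only [abs_one, Int.cast_one, one_pow, mul_one] at h2
  have h3 : ((|@NumberField.discr L _ h| : ℤ) : ℝ) ≤ ((B : ℤ) : ℝ) := by
    refine h2.trans ?_
    exact_mod_cast hB.le
  have h4 : |@NumberField.discr L _ h| ≤ (B : ℤ) := by exact_mod_cast h3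
  exact h4

section

variable {K Ω Ω' : Type} [Field K] [NumberField K] [Field Ω] [CharZero Ω] [Algebra K Ω]
  [Field Ω'] [CharZero Ω'] [Algebra ℚ Ω']

/-- the map on fields -/
noncomputable def Φ (i : Ω ≃ₐ[ℚ] Ω') (L : IntermediateField K Ω) : IntermediateField ℚ Ω' :=
  (L.restrictScalars ℚ).map (i : Ω →ₐ[ℚ] Ω')

theorem Φ_injective (i : Ω ≃ₐ[ℚ] Ω') : Function.Injective (Φ (K := K) i) := by
  intro L M h
  exact IntermediateField.restrictScalars_injective ℚ (IntermediateField.map_injective _ h)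

/-- the isomorphism of fields -/
noncomputable def Φr (i : Ω ≃ₐ[ℚ] Ω') (L : IntermediateField K Ω) : L ≃+* Φ i L :=
  RingEquiv.ofBijective
    (((i : Ω →+* Ω').comp (algebraMap L Ω)).codRestrict (Φ i L) (fun x => ⟨x.1, x.2, rfl⟩))
    ⟨fun a b h => Subtype.ext (i.injective (congrArg Subtype.val h)),
      fun ⟨b, a, ha, hb⟩ => ⟨⟨a, ha⟩, Subtype.ext hb⟩⟩

theorem card_emb {Ω L : Type} [Field Ω] [Algebra ℚ Ω] [IsAlgClosed Ω]
    [Field L] [NumberField L] (B : Algebra ℚ L) {n : ℕ} (e : (L →ₐ[ℚ] Ω) ≃ Fin n) :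
    Module.finrank ℚ L = n := by
  obtain rfl : B = DivisionRing.toRatAlgebra := Subsingleton.elim _ _
  rw [← AlgHom.card ℚ L Ω, Fintype.card_congr e, Fintype.card_fin]

variable [IsAlgClosure K Ω] [IsAlgClosure ℚ Ω']

theorem fields_sub {m n : ℕ} (G : Subgroup (Perm (Fin n)))
    (H : Subgroup (Perm (Fin m))) (hH : HasGp ℚ Ω' K H) (X : ℝ)
    (i : Ω ≃ₐ[ℚ] Ω') (L : IntermediateField K Ω) (hL : L ∈ FieldsIn K Ω n G X) :
    ∃ G' ∈ Wreath G H, Φ i L ∈
      FieldsIn ℚ Ω' (m * n) G' (X * ((|NumberField.discr K| : ℤ) : ℝ) ^ n) := by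
  obtain ⟨h1, h2, h3, h4⟩ := hL
  have hN : NumberField (Φ i L) := NumberField.of_ringEquiv _ _ (Φr i L)
  have hA : IsAlgClosed Ω' := IsAlgClosure.isAlgClosed ℚ
  obtain ⟨G', h5, h6⟩ : ∃ G' : Subgroup (Perm (Fin (m * n))),
      @HasGp ℚ Ω' (Φ i L) _ _ _ _ (Φ i L).algebra' (m * n) G' ∧ InWreath G H G' :=
    main_gen (Φ i L).algebra' (Φr i L) h2 hH
  refine ⟨G', ⟨trans_of_hasGp _ h5, h6⟩, ?_, h5, inferInstance, ?_⟩
  · obtain ⟨e, -⟩ := h5
    exact card_emb _ e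
  · rw [Rat.numberField_discr, ← NumberField.discr_eq_discr_of_ringEquiv L (Φr i L)]
    simpa using h4

theorem count_le {m n : ℕ} (G : Subgroup (Perm (Fin n)))
    (H : Subgroup (Perm (Fin m))) (hH : HasGp ℚ Ω' K H) (X : ℝ) :
    (FieldsIn K Ω n G X).Finite ∧ (FieldsIn K Ω n G X).ncard ≤ ∑ᶠ G' ∈ Wreath G H,
      (FieldsIn ℚ Ω' (m * n) G' (X * ((|NumberField.discr K| : ℤ) : ℝ) ^ n)).ncard := by
  classical
  have : IsAlgClosed Ω := IsAlgClosure.isAlgClosed K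
  have : Algebra.IsAlgebraic K Ω := IsAlgClosure.isAlgebraic
  have : Algebra.IsAlgebraic ℚ K := Algebra.IsAlgebraic.of_finite ℚ K
  have : Algebra.IsAlgebraic ℚ Ω := Algebra.IsAlgebraic.trans ℚ K _
  have : IsAlgClosure ℚ Ω := ⟨inferInstance, inferInstance⟩
  let i : Ω ≃ₐ[ℚ] Ω' := IsAlgClosure.equiv ℚ _ _
  have hW : (Wreath G H).Finite := Set.toFinite _
  have hF : ∀ G', (FieldsIn ℚ Ω' (m * n) G'
      (X * ((|NumberField.discr K| : ℤ) : ℝ) ^ n)).Finite := fun G' => fields_finite _ _ _ _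
  let T : Finset (IntermediateField ℚ Ω') := hW.toFinset.biUnion fun G' => (hF G').toFinset
  have h1 : Φ i '' (FieldsIn K Ω n G X) ⊆ T := by
    rintro _ ⟨L, hL, rfl⟩
    obtain ⟨G', h2, h3⟩ := fields_sub G H hH X i L hL
    rw [Finset.mem_coe, Finset.mem_biUnion]
    exact ⟨G', hW.mem_toFinset.2 h2, (hF G').mem_toFinset.2 h3⟩
  have h2 : (FieldsIn K Ω n G X).Finite :=
    Set.Finite.of_finite_image (T.finite_toSet.subset h1) (Φ_injective i).injOn
  refine ⟨h2, ?_⟩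
  have h3 : (FieldsIn K Ω n G X).ncard = (Φ i '' (FieldsIn K Ω n G X)).ncard :=
    (Set.ncard_image_of_injective _ (Φ_injective i)).symm
  rw [h3, finsum_mem_eq_finite_toFinset_sum _ hW]
  have h4 : (Φ i '' (FieldsIn K Ω n G X)).ncard ≤ T.card := by
    rw [← Set.ncard_coe_finset]
    exact Set.ncard_le_ncard h1 T.finite_toSet
  refine h4.trans (Finset.card_biUnion_le.trans (le_of_eq ?_))
  refine Finset.sum_congr rfl fun G' _ => ?_
  exact (Set.ncard_eq_toFinset_card _ (hF G')).symm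

end

theorem N_le (K : Type) [Field K] [NumberField K] {m n : ℕ} (G : Subgroup (Perm (Fin n)))
    (H : Subgroup (Perm (Fin m))) (hH : IsGroupOf ℚ K H) (X : ℝ) :
    (Fields K n G X).Finite ∧ N K n G X ≤ ∑ᶠ G' ∈ Wreath G H,
      N ℚ (m * n) G' (X * ((|NumberField.discr K| : ℤ) : ℝ) ^ n) :=
  count_le G H hH X

end Pool.Agent.Q52.WM
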