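import Mathlib

/-!
# Galois extensions of `ℚ` of prime degree
-/

set_option autoImplicit false

namespace Pool.Agent.Q52.WM

theorem exists_galois_prime (p : ℕ) (hp : p.Prime) :
    ∃ (F : Type) (_ : Field F) (_ : NumberField F), IsGalois ℚ F ∧ Module.finrank ℚ F = p := by
  obtain ⟨l, hl, -, hlp⟩ := Nat.exists_prime_gt_modEq_one (k := p) 1 hp.ne_zero
  haveI : Fact l.Prime := ⟨hl⟩
  haveI : NeZero l := ⟨hl.ne_zero⟩
  let C := CyclotomicField l ℚ
  haveI : IsCyclotomicExtension {l} ℚ C := CyclotomicField.isCyclotomicExtension l ℚ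
  haveI : IsGalois ℚ C := IsCyclotomicExtension.isGalois {l} ℚ C
  haveI : FiniteDimensional ℚ C := IsCyclotomicExtension.finiteDimensional {l} ℚ C
  have hirr : Irreducible (Polynomial.cyclotomic l ℚ) :=
    Polynomial.cyclotomic.irreducible_rat hl.pos
  let e : (C ≃ₐ[ℚ] C) ≃* (ZMod l)ˣ := IsCyclotomicExtension.autEquivPow C hirr
  haveI : IsCyclic (C ≃ₐ[ℚ] C) := isCyclic_of_surjective e.symm e.symm.surjective
  have hcard : Nat.card (C ≃ₐ[ℚ] C) = l - 1 := by
    rw [Nat.card_congr e.toEquiv, Nat.card_eq_fintype_card, ZMod.card_units l]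
  have hdvd : p ∣ l - 1 := (Nat.modEq_iff_dvd' hl.one_lt.le).1 hlp.symm
  letI : CommGroup (C ≃ₐ[ℚ] C) := IsCyclic.commGroup
  let S : Subgroup (C ≃ₐ[ℚ] C) := (powMonoidHom p : (C ≃ₐ[ℚ] C) →* (C ≃ₐ[ℚ] C)).range
  have hS : S.index = p := by
    have h1 := IsCyclic.index_powMonoidHom_range (C ≃ₐ[ℚ] C) p
    rw [hcard, Nat.gcd_eq_right hdvd] at h1
    exact h1
  haveI : S.Normal := inferInstance
  let F := IntermediateField.fixedField S
  haveI : IsGalois ℚ F := IsGalois.of_fixedField_normal_subgroup S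
  refine ⟨F, inferInstance, inferInstance, inferInstance, ?_⟩
  rw [IntermediateField.finrank_eq_fixingSubgroup_index, IntermediateField.fixingSubgroup_fixedField]
  exact hS

end Pool.Agent.Q52.WM
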