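import Pool.Agent.Q52.WM.CompD
import Pool.Agent.Q52.WM.Count
import Pool.Agent.Q52.WM.Cyc

/-!
# The counting function and the compositum
-/

set_option autoImplicit false

namespace Pool.Agent.Q52.WM

open Equiv NumberField Polynomial

theorem numberField_any {L : Type} [Field L] [CharZero L] (A : Algebra ℚ L)
    (h : @FiniteDimensional ℚ L _ _ A.toModule) : NumberField L := by
  obtain rfl : A = DivisionRing.toRatAlgebra := Subsingleton.elim _ _
  exact ⟨⟩

theorem finiteDimensional_any {L : Type} [Field L] [NumberField L] (A : Algebra ℚ L) :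
    @FiniteDimensional ℚ L _ _ A.toModule := by
  obtain rfl : A = DivisionRing.toRatAlgebra := Subsingleton.elim _ _
  exact NumberField.to_finiteDimensional

theorem card_hom {Ω L : Type} [Field Ω] [IsAlgClosed Ω] [A : Algebra ℚ Ω] [Field L] [CharZero L]
    (B : Algebra ℚ L) (h : @FiniteDimensional ℚ L _ _ B.toModule) :
    Finite (L →+* Ω) ∧ Nat.card (L →+* Ω) = @Module.finrank ℚ L _ _ B.toModule := by
  have hf : Finite (L →ₐ[ℚ] Ω) := inferInstance
  refine ⟨Finite.of_equiv _ (RingHom.equivRatAlgHom L Ω).symm, ?_⟩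
  rw [Nat.card_congr (RingHom.equivRatAlgHom L Ω), Nat.card_eq_fintype_card]
  exact AlgHom.card ℚ L Ω

section

attribute [-instance] DivisionRing.toRatAlgebra SubfieldClass.instSMulRat

variable {Ω : Type} [Field Ω] [CharZero Ω] [Algebra ℚ Ω] [IsAlgClosure ℚ Ω]

/-- a Galois extension of prime degree inside `Ω` -/
theorem exists_inside (p : ℕ) (hp : p.Prime) : ∃ F : IntermediateField ℚ Ω, Normal ℚ F ∧
    FiniteDimensional ℚ F ∧ Module.finrank ℚ F = p := by
  obtain ⟨F₀, _, _, h1, h2⟩ := exists_galois_prime p hp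
  haveI : IsAlgClosed Ω := IsAlgClosure.isAlgClosed ℚ
  letI : Algebra ℚ F₀ := DivisionRing.toRatAlgebra
  haveI : IsGalois ℚ F₀ := h1
  haveI : FiniteDimensional ℚ F₀ := finiteDimensional_any _
  have φ : F₀ →ₐ[ℚ] Ω := IsAlgClosed.lift
  let e : F₀ ≃ₐ[ℚ] φ.fieldRange := AlgEquiv.ofInjectiveField φ
  refine ⟨φ.fieldRange, Normal.of_algEquiv e, e.toLinearEquiv.finiteDimensional, ?_⟩
  rw [← e.toLinearEquiv.finrank_eq]
  exact h2

theorem disc_comp {p n : ℕ} (hp : p.Prime) (hn : 0 < n) (hnp : n < p) (F : IntermediateField ℚ Ω)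
    [FiniteDimensional ℚ F] (hF : Module.finrank ℚ F = p) :
    ∃ C₁ : ℝ, 0 < C₁ ∧ ∀ (L : IntermediateField ℚ Ω) (_ : NumberField L)
      (_ : NumberField ↥(L ⊔ F)), Module.finrank ℚ L = n →
      ((|discr ↥(L ⊔ F)| : ℤ) : ℝ) ≤ C₁ * ((|discr L| : ℤ) : ℝ) ^ p := by
  haveI hNF : NumberField F := numberField_any inferInstance inferInstance
  obtain ⟨θ, hθ⟩ := Q265.BD.exists_prim ℚ F
  refine ⟨Real.exp ((p * n : ℕ) *
    Real.log (Ideal.absNorm (Ideal.span {aeval θ (derivative (minpoly ℤ θ))}) : ℕ)),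
    Real.exp_pos _, ?_⟩
  intro L hL hN hLn
  haveI fL : FiniteDimensional ℚ L := finiteDimensional_any _
  have hc : Nat.Coprime p n :=
    (Nat.Prime.coprime_iff_not_dvd hp).2 (fun hd => absurd (Nat.le_of_dvd hn hd) (by omega))
  have h1 := finrank_comp L F hLn hF hc
  have h2 := finrank_right L F hn hLn h1
  letI := algL L F
  letI := algF L F
  have h3 := Q265.BD.disc_le (F := F) (L := L) (M := ↥(L ⊔ F)) θ
    (adjoin_top L F θ (adjoin_any _ _ hθ)) (delta_ne θ)
  have h4 : Module.finrank L ↥(L ⊔ F) = p := h2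
  have h5 : @Module.finrank ℚ ↥(L ⊔ F) _ _ (DivisionRing.toRatAlgebra).toModule = p * n := by
    rw [← h1]
    exact (finrank_any (L := ↥(L ⊔ F)) (L ⊔ F).algebra').symm
  rw [h4, h5] at h3
  have h6 : (1 : ℝ) ≤ ((|discr L| : ℤ) : ℝ) := by
    exact_mod_cast Int.one_le_abs (NumberField.discr_ne_zero L)
  have h7 : (1 : ℝ) ≤ ((|discr ↥(L ⊔ F)| : ℤ) : ℝ) := by
    exact_mod_cast Int.one_le_abs (NumberField.discr_ne_zero ↥(L ⊔ F))
  have h8 := Real.exp_le_exp.2 h3
  rw [Real.exp_log (by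
    rw [Int.cast_abs] at h7
    linarith)] at h8
  rw [Int.cast_abs]
  refine h8.trans (le_of_eq ?_)
  rw [add_comm, Real.exp_add, Int.cast_abs]
  congr 1
  rw [← Real.rpow_natCast, Real.rpow_def_of_pos (by
    rw [Int.cast_abs] at h6
    linarith), mul_comm]

end

end Pool.Agent.Q52.WM
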