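import Pool.Agent.Q52.WM.CompB

/-!
# The product `G × C` for `C` of prime order `p > n`
-/

set_option autoImplicit false

namespace Pool.Agent.Q52.WM

open Equiv

/-- a group of prime order `p` in `S_p` acts freely -/
theorem free_of_card {p : ℕ} (hp : p.Prime) {C : Subgroup (Perm (Fin p))} (hC : Nat.card C = p)
    {h : Perm (Fin p)} (hh : h ∈ C) {j : Fin p} (hj : h j = j) : h = 1 := by
  by_contra h1
  have h2 : orderOf h = p := by
    have h3 : orderOf (⟨h, hh⟩ : C) ∣ p := (orderOf_dvd_natCard _).trans (dvd_of_eq hC)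
    rw [Subgroup.orderOf_mk] at h3
    rcases (Nat.dvd_prime hp).1 h3 with h4 | h4
    · exact absurd (orderOf_eq_one_iff.1 h4) h1
    · exact h4
  have h3 : ∀ c ∈ h.cycleType, p ≤ c := by
    intro c hc
    have h4 := Perm.dvd_of_mem_cycleType hc
    rw [h2] at h4
    have h5 := Perm.two_le_of_mem_cycleType hc
    rcases (Nat.dvd_prime hp).1 h4 with h6 | h6
    · omega
    · exact h6.ge
  have h4 : 0 < Multiset.card h.cycleType := by
    rw [Multiset.card_pos]
    intro h5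
    exact h1 (Perm.cycleType_eq_zero.1 h5)
  have h5 : Multiset.card h.cycleType * p ≤ h.cycleType.sum := by
    simpa using Multiset.card_nsmul_le_sum (s := h.cycleType) (a := p) h3
  have h6 : p ≤ h.support.card := by
    rw [Perm.sum_cycleType] at h5
    exact le_trans (Nat.le_mul_of_pos_left p h4) h5
  have h7 : h.support = Finset.univ := by
    rw [← Finset.card_eq_iff_eq_univ, Fintype.card_fin]
    exact le_antisymm (by simpa using Finset.card_le_univ h.support) h6
  have h8 : j ∈ h.support := by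
    rw [h7]
    exact Finset.mem_univ j
  exact Perm.mem_support.1 h8 hj

theorem direct_good {p n : ℕ} (hp : p.Prime) {G : Subgroup (Perm (Fin n))}
    {C : Subgroup (Perm (Fin p))} (hC : Nat.card C = p) : Good G C (Direct G C) := by
  refine ⟨finProdFinEquiv.symm, fun π hπ => ?_⟩
  obtain ⟨h, hh, g, hg, h1⟩ := hπ
  exact ⟨h, hh, g, hg, fun k j hk => free_of_card hp hC (C.pow_mem hh k) hk, h1⟩

/-- `π` is `(h, g)` -/
def Form {p n : ℕ} (π : Perm (Fin (p * n))) (h : Perm (Fin p)) (g : Perm (Fin n)) : Prop :=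
  ∀ x, finProdFinEquiv.symm (π x) = (h (finProdFinEquiv.symm x).1, g (finProdFinEquiv.symm x).2)

theorem Form.mul {p n : ℕ} {π π' : Perm (Fin (p * n))} {h h' : Perm (Fin p)}
    {g g' : Perm (Fin n)} (h1 : Form π h g) (h2 : Form π' h' g') :
    Form (π * π') (h * h') (g * g') := by
  intro x
  rw [Perm.mul_apply, h1, h2]
  rfl

theorem Form.pow {p n : ℕ} {π : Perm (Fin (p * n))} {h : Perm (Fin p)}
    {g : Perm (Fin n)} (h1 : Form π h g) (k : ℕ) : Form (π ^ k) (h ^ k) (g ^ k) := by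
  induction k with
  | zero => exact fun x => rfl
  | succ k ih =>
    rw [pow_succ, pow_succ, pow_succ]
    exact ih.mul h1

theorem Form.unique {p n : ℕ} {π π' : Perm (Fin (p * n))} {h : Perm (Fin p)}
    {g : Perm (Fin n)} (h1 : Form π h g) (h2 : Form π' h g) : π = π' := by
  ext1 x
  apply finProdFinEquiv.symm.injective
  rw [h1, h2]

theorem coprime_card {p n : ℕ} (hp : p.Prime) (hnp : n < p) (G : Subgroup (Perm (Fin n))) :
    Nat.Coprime p (Nat.card G) := by
  rw [Nat.Prime.coprime_iff_not_dvd hp]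
  intro h
  have h1 : Nat.card G ∣ Nat.card (Perm (Fin n)) := Subgroup.card_subgroup_dvd_card G
  rw [Nat.card_eq_fintype_card (α := Perm (Fin n)), Fintype.card_perm, Fintype.card_fin] at h1
  have h2 := (hp.dvd_factorial).1 (h.trans h1)
  omega

theorem pow_eq_self {A : Type*} [Group A] {H : Subgroup A} {x : A} (hx : x ∈ H) {k : ℕ}
    (hk : k ≡ 1 [MOD Nat.card H]) : x ^ k = x := by
  have h1 : orderOf x ∣ Nat.card H := Subgroup.orderOf_dvd_natCard H hx
  have h2 : x ^ k = x ^ 1 := pow_eq_pow_iff_modEq.2 (hk.of_dvd h1)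
  rw [h2, pow_one]

theorem pow_eq_one' {A : Type*} [Group A] {H : Subgroup A} {x : A} (hx : x ∈ H) {k : ℕ}
    (hk : k ≡ 0 [MOD Nat.card H]) : x ^ k = 1 := by
  have h1 : orderOf x ∣ Nat.card H := Subgroup.orderOf_dvd_natCard H hx
  have h2 : x ^ k = x ^ 0 := pow_eq_pow_iff_modEq.2 (hk.of_dvd h1)
  rw [h2, pow_zero]

theorem eq_direct {p n : ℕ} {G : Subgroup (Perm (Fin n))} {C : Subgroup (Perm (Fin p))}
    (hc : Nat.Coprime (Nat.card C) (Nat.card G)) {G'' : Subgroup (Perm (Fin (p * n)))}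
    (hA : ∀ π ∈ G'', ∃ h ∈ C, ∃ g ∈ G, Form π h g)
    (hB : ∀ h ∈ C, ∃ π ∈ G'', ∃ g ∈ G, Form π h g)
    (hD : ∀ g ∈ G, ∃ π ∈ G'', ∃ h ∈ C, Form π h g) : G'' = Direct G C := by
  refine le_antisymm (fun π hπ => hA π hπ) ?_
  rintro π ⟨h, hh, g, hg, h1⟩
  obtain ⟨k, hk1, hk2⟩ := Nat.chineseRemainder hc 1 0
  obtain ⟨l, hl1, hl2⟩ := Nat.chineseRemainder hc 0 1
  obtain ⟨π₁, hπ₁, g₁, hg₁, h2⟩ := hB h hh
  obtain ⟨π₂, hπ₂, h₂, hh₂, h3⟩ := hD g hg
  have h4 := (h2.pow k).mul (h3.pow l)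
  rw [pow_eq_self hh hk1, pow_eq_one' hg₁ hk2, pow_eq_one' hh₂ hl1, pow_eq_self hg hl2, mul_one,
    one_mul] at h4
  have h5 : π = π₁ ^ k * π₂ ^ l := Form.unique h1 h4
  rw [h5]
  exact G''.mul_mem (G''.pow_mem hπ₁ k) (G''.pow_mem hπ₂ l)

theorem direct_trans {p n : ℕ} {G : Subgroup (Perm (Fin n))} {C : Subgroup (Perm (Fin p))}
    (hG : Transitive G) (hC : Transitive C) : Transitive (Direct G C) := by
  intro i j
  obtain ⟨h, hh, h1⟩ := hC (finProdFinEquiv.symm i).1 (finProdFinEquiv.symm j).1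
  obtain ⟨g, hg, h2⟩ := hG (finProdFinEquiv.symm i).2 (finProdFinEquiv.symm j).2
  refine ⟨finProdFinEquiv.permCongr (h.prodCongr g), ⟨h, hh, g, hg, fun x => ?_⟩, ?_⟩
  · rw [Equiv.permCongr_apply, Equiv.symm_apply_apply]
    rfl
  · rw [Equiv.permCongr_apply]
    apply finProdFinEquiv.symm.injective
    rw [Equiv.symm_apply_apply]
    exact Prod.ext h1 h2

theorem trans_of_card {p : ℕ} (hp : p.Prime) {C : Subgroup (Perm (Fin p))}
    (hC : Nat.card C = p) : Transitive C := by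
  intro i j
  have hinj : Function.Injective (fun h : C => h.1 i) := by
    intro x y hxy
    have h1 : (y⁻¹ * x).1 i = i := by
      change y.1⁻¹ (x.1 i) = i
      rw [Perm.inv_eq_iff_eq]
      exact hxy
    have h2 := free_of_card hp hC (y⁻¹ * x).2 h1
    have h3 : y⁻¹ * x = 1 := Subtype.ext h2
    rw [inv_mul_eq_one] at h3
    exact h3.symm
  have hbij := (Nat.bijective_iff_injective_and_card (fun h : C => h.1 i)).2
    ⟨hinj, by rw [hC, Nat.card_fin]⟩
  obtain ⟨x, hx⟩ := hbij.2 j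
  exact ⟨x.1, x.2, hx⟩

theorem mi_direct {p n : ℕ} (hp : p.Prime) (hn : 2 ≤ n) (hnp : n < p)
    {G : Subgroup (Perm (Fin n))} (hG : Transitive G) {C : Subgroup (Perm (Fin p))}
    (hC : Nat.card C = p) : mi (Direct G C) = p * mi G := by
  have hd : 2 ≤ p * n := by
    calc 2 ≤ n := hn
      _ = 1 * n := (one_mul n).symm
      _ ≤ p * n := Nat.mul_le_mul_right n hp.one_lt.le
  refine le_antisymm ?_ ((direct_good hp hC).mi_le hp hn hnp.le hd hG
    (direct_trans hG (trans_of_card hp hC)))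
  obtain ⟨g, h1, h2, h3⟩ := mi_mem hn hG
  let π₀ : Perm (Fin p × Fin n) := (1 : Perm (Fin p)).prodCongr g
  have h4 : finProdFinEquiv.permCongr π₀ ∈ Direct G C := ⟨1, C.one_mem, g, h1, fun x => by
    rw [Equiv.permCongr_apply, Equiv.symm_apply_apply]
    rfl⟩
  have h5 : indT π₀ = p * indT g := ind_same g π₀ (fun i j => rfl)
  have h6 : finProdFinEquiv.permCongr π₀ ≠ 1 := by
    intro hc
    apply h2
    ext1 j
    have h7 := congrArg (fun q : Perm (Fin (p * n)) =>
      (finProdFinEquiv.symm (q (finProdFinEquiv (⟨0, hp.pos⟩, j)))).2) hc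
    simpa [Equiv.permCongr_apply, π₀] using h7
  have h7 := mi_le h4 h6
  have h8 : ind (finProdFinEquiv.permCongr π₀) = p * mi G := by
    rw [h3]
    exact (ind_permCongr finProdFinEquiv π₀).trans h5
  rw [h8] at h7
  exact h7

theorem a_direct {p n : ℕ} (hp : p.Prime) (hn : 2 ≤ n) (hnp : n < p)
    {G : Subgroup (Perm (Fin n))} (hG : Transitive G) {C : Subgroup (Perm (Fin p))}
    (hC : Nat.card C = p) : a (Direct G C) = a G / p := by
  change 1 / ((mi (Direct G C) : ℕ) : ℝ) = 1 / ((mi G : ℕ) : ℝ) / p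
  rw [mi_direct hp hn hnp hG hC, div_div]
  push_cast
  rw [mul_comm]

end Pool.Agent.Q52.WM
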