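import Pool.Agent.Q52.WM.Count
import Pool.Agent.Q52.WM.Cls

/-!
# The upper half of the weak Malle conjecture over `K` from the one over `ℚ`
-/

set_option autoImplicit false

namespace Pool.Agent.Q52.WM

open Equiv

/-- the Galois group of `K` over `ℚ` has the property `P` -/
def GroupHas (P : (A : Type) → [Group A] → Prop) (K : Type) [Field K] [NumberField K] : Prop :=
  ∃ (m : ℕ) (H : Subgroup (Perm (Fin m))), IsGroupOf ℚ K H ∧ P H

theorem exists_group (K : Type) [Field K] [NumberField K] :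
    ∃ (m : ℕ) (H : Subgroup (Perm (Fin m))), IsGroupOf ℚ K H := by
  classical
  let e := Fintype.equivFin (K →ₐ[ℚ] AlgebraicClosure ℚ)
  exact ⟨_, gp e, hasGp_gp e⟩

theorem one_le_of_group (K : Type) [Field K] [NumberField K] {m : ℕ} {H : Subgroup (Perm (Fin m))}
    (hH : IsGroupOf ℚ K H) : 1 ≤ m := by
  obtain ⟨e, -⟩ := hH
  have φ : K →ₐ[ℚ] AlgebraicClosure ℚ := IsAlgClosed.lift
  have h := (e φ).2
  omega

theorem wreath_deg {m n : ℕ} (hm : 1 ≤ m) (hn : 2 ≤ n) : 2 ≤ m * n := by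
  calc 2 ≤ n := hn
    _ = 1 * n := (one_mul n).symm
    _ ≤ m * n := Nat.mul_le_mul_right n hm

theorem upper_of (K : Type) [Field K] [NumberField K] {m n : ℕ} (hn : 2 ≤ n)
    {G : Subgroup (Perm (Fin n))} (hG : Transitive G) {H : Subgroup (Perm (Fin m))}
    (hH : IsGroupOf ℚ K H) (h : ∀ G' ∈ Wreath G H, Upper ℚ (m * n) G') : Upper K n G := by
  classical
  intro ε hε
  have hm := one_le_of_group K hH
  have hW : (Wreath G H).Finite := Set.toFinite _
  choose! c hc X₁ hX using fun G' hG' => h G' hG' ε hε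
  let D : ℝ := ((|NumberField.discr K| : ℤ) : ℝ) ^ n
  have hD : 1 ≤ D := by
    apply one_le_pow₀
    have h1 : (1 : ℤ) ≤ |NumberField.discr K| :=
      Int.one_le_abs (NumberField.discr_ne_zero K)
    exact_mod_cast h1
  have ha : 0 ≤ a G + ε := by
    have h1 : 0 ≤ a G := by
      unfold a
      positivity
    linarith
  let C : ℝ := (∑ G' ∈ hW.toFinset, c G') * D ^ (a G + ε) + 1
  have hC0 : 0 ≤ ∑ G' ∈ hW.toFinset, c G' :=
    Finset.sum_nonneg fun G' hG' => (hc G' (hW.mem_toFinset.1 hG')).le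
  refine ⟨C, ?_, 1 + ∑ G' ∈ hW.toFinset, |X₁ G'|, fun X hX1 => ?_⟩
  · have h1 : 0 ≤ (∑ G' ∈ hW.toFinset, c G') * D ^ (a G + ε) :=
      mul_nonneg hC0 (Real.rpow_nonneg (by linarith) _)
    exact lt_of_lt_of_le one_pos (le_add_of_nonneg_left h1)
  · have hs : 0 ≤ ∑ G' ∈ hW.toFinset, |X₁ G'| := Finset.sum_nonneg fun _ _ => abs_nonneg _
    have hX0 : 1 ≤ X := by linarith
    have hXD : X ≤ X * D := le_mul_of_one_le_right (by linarith) hD
    have hle : (N K n G X : ℝ) ≤ ∑ G' ∈ hW.toFinset, (N ℚ (m * n) G' (X * D) : ℝ) := by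
      have h1 := (N_le K G H hH X).2
      rw [finsum_mem_eq_finite_toFinset_sum _ hW] at h1
      calc (N K n G X : ℝ) ≤ ((∑ G' ∈ hW.toFinset, N ℚ (m * n) G' (X * D) : ℕ) : ℝ) :=
            Nat.cast_le.2 h1
        _ = _ := Nat.cast_sum _ _
    have hterm : ∀ G' ∈ hW.toFinset,
        (N ℚ (m * n) G' (X * D) : ℝ) ≤ c G' * (X * D) ^ (a G + ε) := by
      intro G' hG'
      have hG1 := hW.mem_toFinset.1 hG'
      have h1 : X₁ G' ≤ X * D := by
        have h2 : |X₁ G'| ≤ ∑ G' ∈ hW.toFinset, |X₁ G'| :=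
          Finset.single_le_sum (f := fun G' => |X₁ G'|) (fun _ _ => abs_nonneg _) hG'
        have h3 := le_abs_self (X₁ G')
        linarith
      have h2 := (hX G' hG1 (X * D) h1).le
      refine h2.trans (mul_le_mul_of_nonneg_left ?_ (hc G' hG1).le)
      refine Real.rpow_le_rpow_of_exponent_le (by linarith) ?_
      have h3 := a_le hn (wreath_deg hm hn) hG hG1.1 hG1.2
      linarith
    have hsum := hle.trans (Finset.sum_le_sum hterm)
    rw [← Finset.sum_mul, Real.mul_rpow (by linarith) (by linarith)] at hsum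
    have hXp : 0 < X ^ (a G + ε) := Real.rpow_pos_of_pos (by linarith) _
    have hfin : C * X ^ (a G + ε) =
        (∑ G' ∈ hW.toFinset, c G') * (X ^ (a G + ε) * D ^ (a G + ε)) + X ^ (a G + ε) := by
      change ((∑ G' ∈ hW.toFinset, c G') * D ^ (a G + ε) + 1) * X ^ (a G + ε) = _
      ring
    rw [hfin]
    linarith

theorem upper_class {P : (A : Type) → [Group A] → Prop} (hP : Closed P) :
    (∀ (K : Type) [Field K] [NumberField K], GroupHas P K → ∀ (n : ℕ)
      (G : Subgroup (Perm (Fin n))), 2 ≤ n → Transitive G → P G → Upper K n G) ↔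
    (∀ (n : ℕ) (G : Subgroup (Perm (Fin n))), 2 ≤ n → Transitive G → P G → Upper ℚ n G) := by
  constructor
  · intro h n G hn hG hPG
    obtain ⟨m, H, hH⟩ := exists_group ℚ
    refine h ℚ ⟨m, H, hH, hP.sub H G (1 : H →* G) ?_ hPG⟩ n G hn hG hPG
    have h1 : ∀ x : H, x = 1 := by
      rintro ⟨x, hx⟩
      obtain ⟨e, he⟩ := hH
      apply Subtype.ext
      ext1 i
      obtain ⟨φ, rfl⟩ := e.surjective i
      apply e.symm.injective
      apply AlgHom.coe_ringHom_injective
      exact Subsingleton.elim _ _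
    intro x y _
    rw [h1 x, h1 y]
  · rintro h K _ _ ⟨m, H, hH, hPH⟩ n G hn hG hPG
    refine upper_of K hn hG hH fun G' hG' => ?_
    exact h _ G' (wreath_deg (one_le_of_group K hH) hn) hG'.1
      (P_wreath hP (by omega) hPG hPH hG'.2)

end Pool.Agent.Q52.WM
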