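import Pool.Agent.Q52.WM.CompE
import Pool.Agent.Q52.WM.Dir
import Pool.Agent.Q52.WM.Upp

/-!
# The counting function of the product with a group of large prime order
-/

set_option autoImplicit false

namespace Pool.Agent.Q52.WM

open Equiv NumberField Polynomial
open scoped Pointwise

theorem conj_of_card {p : ℕ} (hp : p.Prime) {C C' : Subgroup (Perm (Fin p))}
    (hC : Nat.card C = p) (hC' : Nat.card C' = p) :
    ∃ τ : Perm (Fin p), ∀ x, x ∈ C' ↔ τ⁻¹ * x * τ ∈ C := by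
  haveI : Fact p.Prime := ⟨hp⟩
  have h1 : (Nat.card (Perm (Fin p))).factorization p = 1 := by
    rw [Nat.card_eq_fintype_card, Fintype.card_perm, Fintype.card_fin]
    have h2 : p.factorial = p * (p - 1).factorial := (Nat.mul_factorial_pred hp.ne_zero).symm
    rw [h2, Nat.factorization_mul hp.ne_zero (Nat.factorial_ne_zero _), Finsupp.add_apply,
      hp.factorization_self, Nat.factorization_eq_zero_of_not_dvd]
    intro h3
    have h4 := hp.dvd_factorial.1 h3
    have h5 := hp.pos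
    omega
  let P : Sylow p (Perm (Fin p)) := Sylow.ofCard C (by rw [hC, h1, pow_one])
  let P' : Sylow p (Perm (Fin p)) := Sylow.ofCard C' (by rw [hC', h1, pow_one])
  obtain ⟨τ, hτ⟩ := MulAction.exists_smul_eq (Perm (Fin p)) P P'
  refine ⟨τ, fun x => ?_⟩
  have h2 : x ∈ C' ↔ x ∈ MulAut.conj τ • C := by
    have h3 : (P' : Subgroup (Perm (Fin p))) = MulAut.conj τ • (P : Subgroup (Perm (Fin p))) := by
      rw [← hτ]
      rfl
    have h4 : (P' : Subgroup (Perm (Fin p))) = C' := rfl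
    have h5 : (P : Subgroup (Perm (Fin p))) = C := rfl
    rw [h4, h5] at h3
    rw [h3]
  rw [h2, Subgroup.mem_pointwise_smul_iff_inv_smul_mem]
  have h3 : (MulAut.conj τ)⁻¹ • x = τ⁻¹ * x * τ := by
    rw [← map_inv]
    change MulAut.conj τ⁻¹ x = _
    rw [MulAut.conj_apply, inv_inv]
  rw [h3]

theorem card_gp {Ω : Type} [Field Ω] [Algebra ℚ Ω] {p : ℕ} (hp : p.Prime)
    (F : IntermediateField ℚ Ω) (hN : @Normal ℚ F _ _ F.algebra') {C : Subgroup (Perm (Fin p))}
    (htr : Transitive C) (h : HasGpR Ω F C) : Nat.card C = p := by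
  obtain ⟨e, he⟩ := h
  let j₀ : Fin p := ⟨0, hp.pos⟩
  let r : C → Fin p := fun π => π.1 j₀
  have hr : Function.Bijective r := by
    constructor
    · intro π ρ hπρ
      have h1 : ∀ π : C, π.1 j₀ = j₀ → π = 1 := by
        rintro ⟨π, hπ⟩ hj
        obtain ⟨σ, hσ⟩ := (he π).1 hπ
        have h2 : (σ : Ω →+* Ω).comp (e.symm j₀) = e.symm j₀ := by
          apply e.injective
          rw [hσ, Equiv.apply_symm_apply]
          exact hj
        apply Subtype.ext
        ext1 x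
        obtain ⟨φ, rfl⟩ := e.surjective x
        change π (e φ) = e φ
        rw [← hσ]
        exact congrArg e (@free_of_normal _ _ _ F hN σ (e.symm j₀) φ h2)
      have h2 : (ρ⁻¹ * π).1 j₀ = j₀ := by
        change ρ.1⁻¹ (π.1 j₀) = j₀
        rw [Perm.inv_eq_iff_eq]
        exact hπρ
      have h3 := h1 _ h2
      rw [inv_mul_eq_one] at h3
      exact h3.symm
    · intro j
      obtain ⟨g, hg, hj⟩ := htr j₀ j
      exact ⟨⟨g, hg⟩, hj⟩
  rw [Nat.card_congr (Equiv.ofBijective r hr), Nat.card_fin]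

theorem hasGp_conj {Ω F : Type} [Field Ω] [Field F] {p : ℕ} (hp : p.Prime)
    {C C' : Subgroup (Perm (Fin p))} (hC : Nat.card C = p) (hC' : Nat.card C' = p)
    (h : HasGpR Ω F C) : HasGpR Ω F C' := by
  obtain ⟨τ, hτ⟩ := conj_of_card hp hC hC'
  obtain ⟨e, he⟩ := h
  refine ⟨e.trans τ, fun π => ?_⟩
  rw [hτ, he]
  refine exists_congr fun σ => forall_congr' fun φ => ?_
  rw [Perm.mul_apply, Perm.mul_apply, Perm.eq_inv_iff_eq]
  rfl

section

attribute [-instance] DivisionRing.toRatAlgebra SubfieldClass.instSMulRat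

theorem count_direct (Ω : Type) [Field Ω] [CharZero Ω] [Algebra ℚ Ω] [IsAlgClosure ℚ Ω] {p n : ℕ}
    (hp : p.Prime) (hn : 0 < n) (hnp : n < p) :
    ∃ c : ℝ, 0 < c ∧ ∀ (C : Subgroup (Perm (Fin p))), Nat.card C = p →
      ∀ (G : Subgroup (Perm (Fin n))) (X : ℝ), 0 ≤ X →
        (FieldsIn ℚ Ω n G X).ncard ≤ (FieldsIn ℚ Ω (p * n) (Direct G C) (c * X ^ p)).ncard := by
  classical
  haveI hac : IsAlgClosed Ω := IsAlgClosure.isAlgClosed ℚ
  obtain ⟨F, hN, hfd, hF⟩ := exists_inside (Ω := Ω) p hp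
  obtain ⟨c, hc, hdisc⟩ := disc_comp hp hn hnp F hF
  have hcardF : Fintype.card (F →ₐ[ℚ] Ω) = p := by
    rw [AlgHom.card, hF]
  let eF : (F →ₐ[ℚ] Ω) ≃ Fin p := Fintype.equivFinOfCardEq hcardF
  have hNF : NumberField F := numberField_any F.algebra' hfd
  have htr : Transitive (gp eF) := trans_of_hasGp F.algebra' (hasGp_gp eF)
  have hgp : HasGpR Ω F (gp eF) := hasGp_iff_ring.1 (hasGp_gp eF)
  have hcard : Nat.card (gp eF) = p := card_gp hp F hN htr hgp
  refine ⟨c, hc, fun C hC G X hX => ?_⟩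
  have hFC : HasGpR Ω F C := hasGp_conj hp hcard hC hgp
  have hco : Nat.Coprime p n :=
    (Nat.Prime.coprime_iff_not_dvd hp).2 (fun hd => absurd (Nat.le_of_dvd hn hd) (by omega))
  have hmem : ∀ L ∈ FieldsIn ℚ Ω n G X,
      L ⊔ F ∈ FieldsIn ℚ Ω (p * n) (Direct G C) (c * X ^ p) := by
    rintro L ⟨h1, h2, h3, h4⟩
    haveI fL : FiniteDimensional ℚ L := finiteDimensional_any _
    have h5 := finrank_comp L F h1 hF hco
    haveI fN : FiniteDimensional ℚ ↥(L ⊔ F) := IntermediateField.finiteDimensional_sup L F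
    haveI nN : NumberField ↥(L ⊔ F) := numberField_any (L ⊔ F).algebra' fN
    obtain ⟨h6, h7⟩ := card_hom (Ω := Ω) (L := ↥(L ⊔ F)) (L ⊔ F).algebra' fN
    obtain ⟨G'', h8, -, hA, hB, hD⟩ := comp_group L F (hasGp_iff_ring.1 h2) hFC h6
      (h7.trans h5)
    have h9 : G'' = Direct G C :=
      eq_direct (by rw [hC]; exact coprime_card hp hnp G) hA hB hD
    subst h9
    have h10 : @HasGp ℚ Ω ↥(L ⊔ F) _ _ _ _ (L ⊔ F).algebra' (p * n) (Direct G C) :=
      hasGp_iff_ring.2 h8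
    refine ⟨h5, h10, nN, ?_⟩
    have h11 := hdisc L h3 nN h1
    rw [Rat.numberField_discr] at h4 ⊢
    simp only [abs_one, Int.cast_one, one_pow, mul_one] at h4 ⊢
    refine h11.trans (mul_le_mul_of_nonneg_left ?_ hc.le)
    exact pow_le_pow_left₀ (by exact_mod_cast abs_nonneg _) h4 p
  have hinj : Set.InjOn (fun L : IntermediateField ℚ Ω => L ⊔ F) (FieldsIn ℚ Ω n G X) := by
    rintro L ⟨h1, -, h3, -⟩ L' ⟨h1', -, h3', -⟩ h
    haveI fL : FiniteDimensional ℚ L := finiteDimensional_any _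
    haveI fL' : FiniteDimensional ℚ L' := finiteDimensional_any _
    exact sup_inj hp hnp L L' F h1 h1' hF h
  exact Set.ncard_le_ncard_of_injOn (fun L : IntermediateField ℚ Ω => L ⊔ F) hmem hinj
    (fields_finite _ _ _ _)

end

theorem N_direct {p n : ℕ} (hp : p.Prime) (hn : 0 < n) (hnp : n < p) :
    ∃ c : ℝ, 0 < c ∧ ∀ (C : Subgroup (Perm (Fin p))), Nat.card C = p →
      ∀ (G : Subgroup (Perm (Fin n))) (X : ℝ), 0 ≤ X →
        N ℚ n G X ≤ N ℚ (p * n) (Direct G C) (c * X ^ p) := by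
  letI A : Algebra ℚ (AlgebraicClosure ℚ) := @AlgebraicClosure.instAlgebra ℚ _ ℚ _ (Algebra.id ℚ)
  haveI : IsAlgClosure ℚ (AlgebraicClosure ℚ) :=
    ⟨AlgebraicClosure.isAlgClosed ℚ, AlgebraicClosure.isAlgebraic ℚ⟩
  exact count_direct (AlgebraicClosure ℚ) hp hn hnp

end Pool.Agent.Q52.WM
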