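import Pool.Agent.Q52.WM.CompG

/-!
# The products with groups of large prime order suffice
-/

set_option autoImplicit false

namespace Pool.Agent.Q52.WM

open Equiv

theorem upper_direct {p n : ℕ} (hp : p.Prime) (hn : 2 ≤ n) (hnp : n < p)
    {C : Subgroup (Perm (Fin p))} (hC : Nat.card C = p) {G : Subgroup (Perm (Fin n))}
    (hG : Transitive G) (h : Upper ℚ (p * n) (Direct G C)) : Upper ℚ n G := by
  obtain ⟨c, hc, hle⟩ := N_direct hp (by omega : 0 < n) hnp
  intro ε hε
  have hp0 : (0 : ℝ) < p := by exact_mod_cast hp.pos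
  obtain ⟨c', hc', X₁, hX⟩ := h (ε / p) (by positivity)
  refine ⟨c' * c ^ ((a G + ε) / p), mul_pos hc' (Real.rpow_pos_of_pos hc _),
    1 + (1 + |X₁|) / c, fun X hX1 => ?_⟩
  have h2 : 0 ≤ (1 + |X₁|) / c := by positivity
  have hX0 : 1 ≤ X := by linarith
  have h3 : 1 + |X₁| ≤ c * X := by
    have h4 : (1 + |X₁|) / c ≤ X := by linarith
    rw [div_le_iff₀ hc] at h4
    linarith
  have h5 : X ≤ X ^ p := le_self_pow₀ hX0 hp.ne_zero
  have hY : 1 + |X₁| ≤ c * X ^ p := h3.trans (mul_le_mul_of_nonneg_left h5 hc.le)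
  have h6 : (N ℚ n G X : ℝ) ≤ N ℚ (p * n) (Direct G C) (c * X ^ p) :=
    Nat.cast_le.2 (hle C hC G X (by linarith))
  have h7 := hX (c * X ^ p) (by
    have h8 := le_abs_self X₁
    linarith)
  refine lt_of_le_of_lt h6 (h7.trans_eq ?_)
  have hXp : (X ^ p) ^ ((a G + ε) / p) = X ^ (a G + ε) := by
    rw [← Real.rpow_natCast, ← Real.rpow_mul (by linarith), mul_div_cancel₀ _ hp0.ne']
  rw [a_direct hp hn hnp hG hC, ← add_div, Real.mul_rpow hc.le (by positivity), hXp, mul_assoc]

theorem lower_direct {p n : ℕ} (hp : p.Prime) (hn : 2 ≤ n) (hnp : n < p)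
    {C : Subgroup (Perm (Fin p))} (hC : Nat.card C = p) {G : Subgroup (Perm (Fin n))}
    (hG : Transitive G) (h : Lower ℚ n G) : Lower ℚ (p * n) (Direct G C) := by
  obtain ⟨c, hc, hle⟩ := N_direct hp (by omega : 0 < n) hnp
  have hp0 : (0 : ℝ) < p := by exact_mod_cast hp.pos
  obtain ⟨c', hc', X₁, hX⟩ := h
  refine ⟨c' * (1 / c) ^ (a G / p), mul_pos hc' (Real.rpow_pos_of_pos (by positivity) _),
    c * |X₁| ^ p, fun Y hY => ?_⟩
  have hY0 : 0 ≤ Y := le_trans (by positivity) hY
  have h1 : |X₁| ^ p ≤ Y / c := by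
    rw [le_div_iff₀ hc]
    linarith
  let X : ℝ := (Y / c) ^ (1 / (p : ℝ))
  have hXp : X ^ p = Y / c := by
    change ((Y / c) ^ (1 / (p : ℝ))) ^ p = Y / c
    rw [← Real.rpow_natCast, ← Real.rpow_mul (by positivity), one_div,
      inv_mul_cancel₀ hp0.ne', Real.rpow_one]
  have hX0 : 0 ≤ X := Real.rpow_nonneg (by positivity) _
  have h2 : |X₁| ≤ X := by
    rw [← hXp] at h1
    exact le_of_pow_le_pow_left₀ hp.ne_zero hX0 h1
  have h3 := hX X ((le_abs_self X₁).trans h2)
  have h4 := hle C hC G X hX0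
  rw [hXp, mul_div_cancel₀ _ hc.ne'] at h4
  refine le_trans (le_of_eq ?_) (h3.trans (Nat.cast_le.2 h4))
  rw [a_direct hp hn hnp hG hC, mul_assoc]
  congr 1
  change _ = ((Y / c) ^ (1 / (p : ℝ))) ^ a G
  rw [← Real.rpow_mul (by positivity), ← Real.mul_rpow (by positivity) hY0]
  congr 1
  · ring
  · ring

/-- for arbitrarily large primes `p`, the groups of order `p` have the property `P` -/
def PrimeOrders (P : (A : Type) → [Group A] → Prop) : Prop :=
  ∀ M : ℕ, ∃ p : ℕ, p.Prime ∧ M ≤ p ∧ ∀ (A : Type) [Group A], Nat.card A = p → P A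

theorem true_prime : PrimeOrders (fun (A : Type) [Group A] => True) := by
  intro M
  obtain ⟨p, h1, h2⟩ := Nat.exists_infinite_primes M
  exact ⟨p, h2, h1, fun _ _ _ => trivial⟩

theorem solvable_prime : PrimeOrders (fun A [Group A] => Group.IsSolvable A) := by
  intro M
  obtain ⟨p, h1, h2⟩ := Nat.exists_infinite_primes M
  refine ⟨p, h2, h1, fun A _ hA => ?_⟩
  haveI : Fact p.Prime := ⟨h2⟩
  haveI : IsCyclic A := isCyclic_of_prime_card hA
  exact Group.isSolvable_of_comm fun x y => by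
    obtain ⟨g, hg⟩ := IsCyclic.exists_generator (α := A)
    obtain ⟨i, rfl⟩ := Subgroup.mem_zpowers_iff.1 (hg x)
    obtain ⟨j, rfl⟩ := Subgroup.mem_zpowers_iff.1 (hg y)
    rw [← zpow_add, ← zpow_add, add_comm]

/-- the upper half over all number fields whose Galois group has the property `P`, for all groups
with the property `P` -/
def UpperEverywhere (P : (A : Type) → [Group A] → Prop) : Prop :=
  ∀ (K : Type) [Field K] [NumberField K], GroupHas P K →
    ∀ (n : ℕ) (G : Subgroup (Perm (Fin n))), 2 ≤ n → Transitive G → P G → Upper K n G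

/-- for every transitive group `G` with the property `P`, the upper half over `ℚ` holds for the
product of `G` with a group of prime order, for at least one prime `p ≥ B` above the degree -/
def UpperProducts (P : (A : Type) → [Group A] → Prop) (B : ℕ) : Prop :=
  ∀ (n : ℕ) (G : Subgroup (Perm (Fin n))), 2 ≤ n → Transitive G → P G →
    ∃ p : ℕ, p.Prime ∧ n < p ∧ B ≤ p ∧ ∃ C : Subgroup (Perm (Fin p)), Nat.card C = p ∧
      Upper ℚ (p * n) (Direct G C)

theorem exists_card {p : ℕ} (hp : p.Prime) : ∃ C : Subgroup (Perm (Fin p)), Nat.card C = p := by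
  haveI : Fact p.Prime := ⟨hp⟩
  have h1 : p ∣ Nat.card (Perm (Fin p)) := by
    rw [Nat.card_eq_fintype_card, Fintype.card_perm, Fintype.card_fin]
    exact Nat.dvd_factorial hp.pos le_rfl
  obtain ⟨x, hx⟩ := exists_prime_orderOf_dvd_card' p h1
  exact ⟨Subgroup.zpowers x, by rw [Nat.card_zpowers, hx]⟩

theorem products_iff {P : (A : Type) → [Group A] → Prop} (hP : Closed P) (hP1 : PrimeOrders P)
    (B : ℕ) : UpperEverywhere P ↔ UpperProducts P B := by
  unfold UpperEverywhere
  rw [upper_class hP]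
  constructor
  · intro h n G hn hG hPG
    obtain ⟨p, hp, hp1, hp2⟩ := hP1 (n + B + 1)
    obtain ⟨C, hC⟩ := exists_card hp
    refine ⟨p, hp, by omega, by omega, C, hC, h _ _ (wreath_deg hp.pos hn)
      (direct_trans hG (trans_of_card hp hC)) ?_⟩
    exact P_wreath hP (by omega) hPG (hp2 C hC) (direct_good hp hC).inWreath
  · intro h n G hn hG hPG
    obtain ⟨p, hp, hnp, -, C, hC, h1⟩ := h n G hn hG hPG
    exact upper_direct hp hn hnp hC hG h1

/-- Q1: the weak form of Malle's conjecture -/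
def Q1 : Prop :=
  ∀ (K : Type) [Field K] [NumberField K] (n : ℕ) (G : Subgroup (Perm (Fin n))), 2 ≤ n →
    Transitive G → Lower K n G ∧ Upper K n G

theorem q1_iff (B : ℕ) : Q1 ↔ UpperProducts (fun _ => True) B ∧
    ∀ (K : Type) [Field K] [NumberField K] (n : ℕ) (G : Subgroup (Perm (Fin n))), 2 ≤ n →
      Transitive G → Lower K n G := by
  have h1 : Closed (fun (A : Type) [Group A] => True) := true_closed
  have h2 : PrimeOrders (fun (A : Type) [Group A] => True) := true_prime
  have h3 := products_iff h1 h2 B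
  constructor
  · intro h
    exact ⟨h3.1 fun K _ _ _ n G hn hG _ => (h K n G hn hG).2, fun K _ _ n G hn hG =>
      (h K n G hn hG).1⟩
  · rintro ⟨h4, h5⟩ K _ _ n G hn hG
    refine ⟨h5 K n G hn hG, h3.2 h4 K ?_ n G hn hG trivial⟩
    obtain ⟨m, H, hH⟩ := exists_group K
    exact ⟨m, H, hH, trivial⟩

end Pool.Agent.Q52.WM
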