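import Pool.Agent.Q52.WM.Perm

/-!
# The Galois group of a tower `L / K / ℚ` lies in a wreath product
-/

set_option autoImplicit false

namespace Pool.Agent.Q52.WM

open Equiv

/-- the permutation `φ ↦ σ ∘ φ` of the embeddings -/
def act {k Ω L : Type*} [Field k] [Field Ω] [Algebra k Ω] [Field L] [Algebra k L]
    (σ : Ω ≃ₐ[k] Ω) : Perm (L →ₐ[k] Ω) where
  toFun φ := σ.toAlgHom.comp φ
  invFun φ := σ.symm.toAlgHom.comp φ
  left_inv φ := by ext x; simp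
  right_inv φ := by ext x; simp

/-- `G` is the Galois group of `L` over `k`, acting on the embeddings in `Ω` -/
def HasGp (k Ω L : Type*) [Field k] [Field Ω] [Algebra k Ω] [Field L] [Algebra k L] {n : ℕ}
    (G : Subgroup (Perm (Fin n))) : Prop :=
  ∃ e : (L →ₐ[k] Ω) ≃ Fin n, ∀ π : Perm (Fin n),
    π ∈ G ↔ ∃ σ : Ω ≃ₐ[k] Ω, ∀ φ : L →ₐ[k] Ω, e (σ.toAlgHom.comp φ) = π (e φ)

/-- the Galois group, for a numbering of the embeddings -/
def gp {k Ω L : Type*} [Field k] [Field Ω] [Algebra k Ω] [Field L] [Algebra k L] {n : ℕ}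
    (e : (L →ₐ[k] Ω) ≃ Fin n) : Subgroup (Perm (Fin n)) where
  carrier := {π | ∃ σ : Ω ≃ₐ[k] Ω, ∀ φ : L →ₐ[k] Ω, e (σ.toAlgHom.comp φ) = π (e φ)}
  mul_mem' := by
    rintro a b ⟨σ, hσ⟩ ⟨τ, hτ⟩
    refine ⟨σ * τ, fun φ => ?_⟩
    rw [Perm.mul_apply, ← hτ, ← hσ]
    rfl
  one_mem' := ⟨1, fun φ => rfl⟩
  inv_mem' := by
    rintro a ⟨σ, hσ⟩
    refine ⟨σ.symm, fun φ => ?_⟩
    rw [Perm.eq_inv_iff_eq, ← hσ]
    congr 1
    ext x
    simp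

theorem hasGp_gp {k Ω L : Type*} [Field k] [Field Ω] [Algebra k Ω] [Field L] [Algebra k L] {n : ℕ}
    (e : (L →ₐ[k] Ω) ≃ Fin n) : HasGp k Ω L (gp e) := ⟨e, fun _ => Iff.rfl⟩

theorem hasGp_congr {k Ω Ω' L L' : Type*} [Field k] [Field Ω] [Algebra k Ω] [Field L] [Algebra k L]
    [Field Ω'] [Algebra k Ω'] [Field L'] [Algebra k L'] (l : L ≃ₐ[k] L') (i : Ω ≃ₐ[k] Ω') {n : ℕ}
    {G : Subgroup (Perm (Fin n))} (h : HasGp k Ω L G) : HasGp k Ω' L' G := by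
  obtain ⟨e, he⟩ := h
  refine ⟨(AlgEquiv.arrowCongr l i).symm.trans e, fun π => ?_⟩
  rw [he]
  constructor
  · rintro ⟨σ, hσ⟩
    refine ⟨(i.symm.trans σ).trans i, fun φ => ?_⟩
    rw [Equiv.trans_apply, Equiv.trans_apply, ← hσ]
    congr 1
    ext x
    simp [AlgEquiv.arrowCongr]
  · rintro ⟨σ, hσ⟩
    refine ⟨(i.trans σ).trans i.symm, fun φ => ?_⟩
    have h := hσ (AlgEquiv.arrowCongr l i φ)
    rw [Equiv.trans_apply, Equiv.trans_apply, Equiv.symm_apply_apply] at h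
    rw [← h]
    congr 1
    ext x
    simp [AlgEquiv.arrowCongr]

section

variable {K Ω : Type} [Field K] [NumberField K] [Field Ω] [CharZero Ω] [Algebra K Ω]
  [IsAlgClosure K Ω]

theorem exists_auto (ψ : K →ₐ[ℚ] Ω) :
    ∃ τ : Ω ≃ₐ[ℚ] Ω, ∀ a : K, τ (algebraMap K Ω a) = ψ a := by
  haveI : IsAlgClosed Ω := IsAlgClosure.isAlgClosed K
  haveI : Algebra.IsAlgebraic K Ω := IsAlgClosure.isAlgebraic
  haveI : Algebra.IsAlgebraic ℚ K := Algebra.IsAlgebraic.of_finite ℚ K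
  haveI : Algebra.IsAlgebraic ℚ Ω := Algebra.IsAlgebraic.trans ℚ K Ω
  haveI : Algebra.IsAlgebraic ψ.fieldRange Ω := Algebra.IsAlgebraic.tower_top (K := ℚ) _
  haveI : IsAlgClosure ψ.fieldRange Ω := ⟨inferInstance, inferInstance⟩
  let r : K ≃+* ψ.fieldRange := RingEquiv.ofBijective
    ((ψ : K →+* Ω).codRestrict ψ.fieldRange (fun x => ⟨x, rfl⟩))
    ⟨fun a b h => (ψ : K →+* Ω).injective (congrArg Subtype.val h),
      fun ⟨b, a, ha⟩ => ⟨a, Subtype.ext ha⟩⟩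
  let t : Ω ≃+* Ω := IsAlgClosure.equivOfEquiv Ω Ω r
  refine ⟨AlgEquiv.ofRingEquiv (f := t) (fun q => ?_), fun a => ?_⟩
  · rw [eq_ratCast (algebraMap ℚ Ω), map_ratCast]
  · exact IsAlgClosure.equivOfEquiv_algebraMap Ω Ω r a

end

end Pool.Agent.Q52.WM
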