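import Pool.Agent.Q52.WM.Wr
import Pool.Agent.Q52.WM.Defs

/-!
# The Galois group over `ℚ` of an extension of `K`
-/

set_option autoImplicit false

namespace Pool.Agent.Q52.WM

open Equiv

theorem trans_of_hasGp {Ω L : Type} [Field Ω] [CharZero Ω] [A : Algebra ℚ Ω] [IsAlgClosure ℚ Ω]
    [Field L] [NumberField L] (B : Algebra ℚ L) {n : ℕ} {G : Subgroup (Perm (Fin n))}
    (h : HasGp ℚ Ω L G) : Transitive G := by
  obtain rfl : A = DivisionRing.toRatAlgebra := Subsingleton.elim _ _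
  obtain rfl : B = DivisionRing.toRatAlgebra := Subsingleton.elim _ _
  obtain ⟨e, he⟩ := h
  intro i j
  let φ := e.symm i
  let ψ := e.symm j
  haveI : IsAlgClosed Ω := IsAlgClosure.isAlgClosed ℚ
  haveI : Algebra.IsAlgebraic ℚ Ω := IsAlgClosure.isAlgebraic
  letI : Algebra L Ω := (φ : L →+* Ω).toAlgebra
  haveI : Algebra.IsAlgebraic L Ω := Algebra.IsAlgebraic.tower_top (K := ℚ) L
  haveI : IsAlgClosure L Ω := ⟨inferInstance, inferInstance⟩
  obtain ⟨τ, hτ⟩ := exists_auto (K := L) (Ω := Ω) ψ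
  have h1 : τ.toAlgHom.comp φ = ψ := by
    ext x
    exact hτ x
  refine ⟨e.permCongr (act τ), ?_, ?_⟩
  · rw [he]
    refine ⟨τ, fun χ => ?_⟩
    rw [Equiv.permCongr_apply, Equiv.symm_apply_apply]
    rfl
  · rw [Equiv.permCongr_apply]
    change e (τ.toAlgHom.comp φ) = j
    rw [h1]
    exact e.apply_symm_apply j

theorem main_gen {K Ω Ω' L L' : Type} [Field K] [NumberField K] [Field Ω] [CharZero Ω]
    [Algebra K Ω] [IsAlgClosure K Ω] [Field L] [CharZero L] [Algebra K L] [Field Ω'] [CharZero Ω']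
    [Algebra ℚ Ω'] [IsAlgClosure ℚ Ω'] [Field L'] [CharZero L'] (B : Algebra ℚ L') (r : L ≃+* L')
    {m n : ℕ}
    {G : Subgroup (Perm (Fin n))} (hG : HasGp K Ω L G) {H : Subgroup (Perm (Fin m))}
    (hH : HasGp ℚ Ω' K H) :
    ∃ G' : Subgroup (Perm (Fin (m * n))), HasGp ℚ Ω' L' G' ∧ InWreath G H G' := by
  haveI : IsAlgClosed Ω := IsAlgClosure.isAlgClosed K
  haveI : Algebra.IsAlgebraic K Ω := IsAlgClosure.isAlgebraic
  haveI : Algebra.IsAlgebraic ℚ K := Algebra.IsAlgebraic.of_finite ℚ K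
  haveI : Algebra.IsAlgebraic ℚ Ω := Algebra.IsAlgebraic.trans ℚ K Ω
  haveI : IsAlgClosure ℚ Ω := ⟨inferInstance, inferInstance⟩
  let i : Ω ≃ₐ[ℚ] Ω' := IsAlgClosure.equiv ℚ Ω Ω'
  let l : L ≃ₐ[ℚ] L' := AlgEquiv.ofRingEquiv (f := r) (fun q => by
    rw [eq_ratCast (algebraMap ℚ L), map_ratCast, eq_ratCast (algebraMap ℚ L')])
  obtain ⟨eP, hP⟩ := hasGp_congr (AlgEquiv.refl : K ≃ₐ[ℚ] K) i.symm hH
  obtain ⟨e, he⟩ := hG
  obtain ⟨f, hf⟩ := wreath e he eP hP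
  refine ⟨gp (f.trans finProdFinEquiv), hasGp_congr l i (hasGp_gp _), finProdFinEquiv.symm, ?_⟩
  rintro π ⟨σ, hσ⟩
  obtain ⟨s, hs, g, hg, h⟩ := hf σ
  refine ⟨s, hs, g, hg, fun x => ?_⟩
  have h1 := hσ (f.symm (finProdFinEquiv.symm x))
  rw [Equiv.trans_apply, Equiv.trans_apply, Equiv.apply_symm_apply, Equiv.apply_symm_apply] at h1
  rw [← h1, Equiv.symm_apply_apply, h, Equiv.apply_symm_apply]

end Pool.Agent.Q52.WM
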