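import Mathlib

/-!
# The index of a permutation in a wreath product
-/

set_option autoImplicit false

namespace Pool.Agent.Q52.WM

open Equiv

section

variable {α β : Type*} [Fintype α] [DecidableEq α] [Fintype β] [DecidableEq β]

/-- degree minus number of cycles -/
def indT (g : Perm α) : ℕ := g.cycleType.sum - Multiset.card g.cycleType

theorem two_card_le (g : Perm α) : 2 * Multiset.card g.cycleType ≤ g.cycleType.sum := by
  have h : ∀ m : Multiset ℕ, (∀ x ∈ m, 2 ≤ x) → 2 * Multiset.card m ≤ m.sum := by
    intro m
    induction m using Multiset.induction_on with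
    | empty => intro _; simp
    | cons a m ih =>
      intro h
      have h1 := h a (Multiset.mem_cons_self a m)
      have h2 := ih (fun x hx => h x (Multiset.mem_cons_of_mem hx))
      simp only [Multiset.card_cons, Multiset.sum_cons]
      omega
  exact h _ (fun x hx => Equiv.Perm.two_le_of_mem_cycleType hx)

theorem one_le_ind {g : Perm α} (hg : g ≠ 1) : 1 ≤ indT g := by
  have h1 := two_card_le g
  have h2 : 0 < Multiset.card g.cycleType := by
    rw [Multiset.card_pos]
    intro h
    exact hg (Equiv.Perm.cycleType_eq_zero.1 h)
  unfold indT
  omega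

theorem support_le_two_ind (g : Perm α) : g.support.card ≤ 2 * indT g := by
  have h1 := two_card_le g
  have h2 := Equiv.Perm.sum_cycleType g
  unfold indT
  omega

theorem ind_lt {g : Perm α} (hg : g ≠ 1) : indT g < Fintype.card α := by
  have h1 := two_card_le g
  have h2 : 0 < Multiset.card g.cycleType := by
    rw [Multiset.card_pos]
    intro h
    exact hg (Equiv.Perm.cycleType_eq_zero.1 h)
  have h3 := Equiv.Perm.sum_cycleType_le g
  unfold indT
  omega

theorem ind_extend {p : β → Prop} [DecidablePred p] (f : α ≃ Subtype p) (g : Perm α) :
    indT (g.extendDomain f) = indT g := by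
  unfold indT
  rw [Perm.cycleType_extendDomain]

theorem ind_permCongr (f : α ≃ β) (g : Perm α) : indT (f.permCongr g) = indT g := by
  have h : f.permCongr g = g.extendDomain (f.trans (Equiv.subtypeUnivEquiv
      (p := fun _ : β => True) (fun _ => trivial)).symm) := by
    ext x
    rw [Perm.extendDomain_apply_subtype _ _ trivial]
    simp [Equiv.permCongr_apply, Equiv.subtypeUnivEquiv]
  rw [h, ind_extend]

theorem ind_mul {g h : Perm α} (hd : Perm.Disjoint g h) : indT g ≤ indT (g * h) := by
  have h1 := two_card_le g
  have h2 := two_card_le h
  unfold indT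
  rw [hd.cycleType_mul, Multiset.sum_add, Multiset.card_add]
  omega

end

/-- An element `(s, g)` of a wreath product, which is not the identity, has index at least `q` if
`q ≤ n` and all nontrivial `g i` have index at least `q`. -/
theorem ind_wreath {m n : ℕ} (π : Perm (Fin m × Fin n)) (s : Perm (Fin m))
    (g : Fin m → Perm (Fin n)) (h : ∀ i j, π (i, j) = (s i, g i j)) (hπ : π ≠ 1) (q : ℕ)
    (hq : ∀ i, g i ≠ 1 → q ≤ indT (g i)) (hn : q ≤ n) : q ≤ indT π := by
  by_cases hs : s = 1
  · subst hs
    obtain ⟨i, hi⟩ : ∃ i, g i ≠ 1 := by
      by_contra hc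
      push Not at hc
      apply hπ
      ext1 ⟨i, j⟩
      rw [h, hc i]
      rfl
    let f : Fin n ≃ {x : Fin m × Fin n // x.1 = i} :=
      { toFun := fun j => ⟨(i, j), rfl⟩
        invFun := fun x => x.1.2
        left_inv := fun j => rfl
        right_inv := fun x => by
          obtain ⟨⟨a, b⟩, hx⟩ := x
          have hx' : a = i := hx
          subst hx'
          rfl }
    let c : Perm (Fin m × Fin n) := (g i).extendDomain f
    have hc1 : ∀ j, c (i, j) = (i, g i j) := fun j => Perm.extendDomain_apply_image (g i) f j
    have hc2 : ∀ a j, a ≠ i → c (a, j) = (a, j) := fun a j ha =>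
      Perm.extendDomain_apply_not_subtype (g i) f ha
    have hci : ∀ x, c⁻¹ x = c.symm x := fun x => rfl
    have hd : Perm.Disjoint c (c⁻¹ * π) := by
      rintro ⟨a, j⟩
      by_cases ha : a = i
      · subst ha
        right
        rw [Perm.mul_apply, h, Perm.inv_eq_iff_eq]
        exact (hc1 j).symm
      · left
        exact hc2 a j ha
    have h1 := ind_mul hd
    rw [mul_inv_cancel_left] at h1
    have h2 : indT c = indT (g i) := ind_extend f (g i)
    have h3 := hq i hi
    omega
  · obtain ⟨i, hi⟩ : ∃ i, s i ≠ i := by
      by_contra hc
      push Not at hc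
      exact hs (Equiv.ext hc)
    have h1 := support_le_two_ind π
    have h2 : 2 * n ≤ π.support.card := by
      have h3 : ((Finset.univ.filter fun x : Fin m × Fin n => x.1 = i) ∪
          (Finset.univ.filter fun x : Fin m × Fin n => x.1 = s i)) ⊆ π.support := by
        rintro ⟨a, j⟩ hx
        rw [Finset.mem_union, Finset.mem_filter, Finset.mem_filter] at hx
        rw [Perm.mem_support, h]
        intro he
        have he' : s a = a := congrArg Prod.fst he
        rcases hx with hx | hx
        · have hx' : a = i := hx.2
          subst hx'
          exact hi he'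
        · have hx' : a = s i := hx.2
          subst hx'
          exact hi (s.injective he')
      have h4 := Finset.card_le_card h3
      rw [Finset.card_union_of_disjoint] at h4
      · have h5 : ∀ k : Fin m, (Finset.univ.filter fun x : Fin m × Fin n => x.1 = k).card = n := by
          intro k
          have h6 : (Finset.univ.filter fun x : Fin m × Fin n => x.1 = k) =
              ({k} : Finset (Fin m)) ×ˢ (Finset.univ : Finset (Fin n)) := by
            ext ⟨a, j⟩
            simp only [Finset.mem_filter, Finset.mem_univ, true_and, Finset.mem_product,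
              Finset.mem_singleton, and_true]
          rw [h6, Finset.card_product]
          simp
        rw [h5, h5] at h4
        omega
      · rw [Finset.disjoint_left]
        rintro ⟨a, j⟩ h6 h7
        rw [Finset.mem_filter] at h6 h7
        exact hi (h7.2.symm.trans h6.2)
    omega

end Pool.Agent.Q52.WM
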