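import Pool.Agent.Q52.WM.Fld

/-!
# The Galois group of a tower `L / K / ℚ` lies in a wreath product, continued
-/

set_option autoImplicit false

namespace Pool.Agent.Q52.WM

open Equiv

section

variable {K Ω L : Type} [Field K] [NumberField K] [Field Ω] [CharZero Ω] [Algebra K Ω]
  [IsAlgClosure K Ω] [Field L] [CharZero L] [Algebra K L]

/-- restriction to `K` -/
noncomputable def res (φ : L →ₐ[ℚ] Ω) : K →ₐ[ℚ] Ω :=
  φ.comp (IsScalarTower.toAlgHom ℚ K L)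

theorem res_apply (φ : L →ₐ[ℚ] Ω) (a : K) : res φ a = φ (algebraMap K L a) := rfl

/-- `τ⁻¹ ∘ φ`, if `τ` extends the restriction of `φ` -/
noncomputable def lft (τ : Ω ≃ₐ[ℚ] Ω) (φ : L →ₐ[ℚ] Ω)
    (h : ∀ a : K, τ (algebraMap K Ω a) = φ (algebraMap K L a)) : L →ₐ[K] Ω :=
  { (τ.symm.toAlgHom.comp φ).toRingHom with
    commutes' := fun a => by
      change τ.symm (φ (algebraMap K L a)) = _
      rw [← h, AlgEquiv.symm_apply_apply] }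

theorem lft_apply (τ : Ω ≃ₐ[ℚ] Ω) (φ : L →ₐ[ℚ] Ω)
    (h : ∀ a : K, τ (algebraMap K Ω a) = φ (algebraMap K L a)) (x : L) :
    lft τ φ h x = τ.symm (φ x) := rfl

/-- `τ ∘ χ` -/
noncomputable def cmp (τ : Ω ≃ₐ[ℚ] Ω) (χ : L →ₐ[K] Ω) : L →ₐ[ℚ] Ω :=
  { (τ : Ω →+* Ω).comp (χ : L →+* Ω) with
    commutes' := fun a => by
      change τ (χ (algebraMap ℚ L a)) = _
      rw [eq_ratCast (algebraMap ℚ L), map_ratCast, map_ratCast, eq_ratCast (algebraMap ℚ Ω)] }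

theorem cmp_apply (τ : Ω ≃ₐ[ℚ] Ω) (χ : L →ₐ[K] Ω) (x : L) : cmp τ χ x = τ (χ x) := rfl

/-- the automorphism `τ'⁻¹ σ τ` over `K` -/
noncomputable def mid (τ' σ τ : Ω ≃ₐ[ℚ] Ω)
    (h : ∀ a : K, τ' (algebraMap K Ω a) = σ (τ (algebraMap K Ω a))) : Ω ≃ₐ[K] Ω :=
  { ((τ.trans σ).trans τ'.symm).toRingEquiv with
    commutes' := fun a => by
      change τ'.symm (σ (τ (algebraMap K Ω a))) = _
      rw [← h, AlgEquiv.symm_apply_apply] }

theorem mid_apply (τ' σ τ : Ω ≃ₐ[ℚ] Ω)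
    (h : ∀ a : K, τ' (algebraMap K Ω a) = σ (τ (algebraMap K Ω a))) (x : Ω) :
    mid τ' σ τ h x = τ'.symm (σ (τ x)) := rfl

theorem wreath {m n : ℕ} (e : (L →ₐ[K] Ω) ≃ Fin n) {G : Subgroup (Perm (Fin n))}
    (hG : ∀ π : Perm (Fin n), π ∈ G ↔ ∃ σ : Ω ≃ₐ[K] Ω, ∀ φ, e (σ.toAlgHom.comp φ) = π (e φ))
    (eP : (K →ₐ[ℚ] Ω) ≃ Fin m) {H : Subgroup (Perm (Fin m))}
    (hH : ∀ π : Perm (Fin m), π ∈ H ↔ ∃ σ : Ω ≃ₐ[ℚ] Ω, ∀ φ, eP (σ.toAlgHom.comp φ) = π (eP φ)) :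
    ∃ f : (L →ₐ[ℚ] Ω) ≃ Fin m × Fin n, ∀ σ : Ω ≃ₐ[ℚ] Ω, ∃ s ∈ H, ∃ g : Fin m → Perm (Fin n),
      (∀ i, g i ∈ G) ∧ ∀ φ, f (σ.toAlgHom.comp φ) = (s (f φ).1, g (f φ).1 (f φ).2) := by
  choose τ hτ using fun ψ : K →ₐ[ℚ] Ω => exists_auto (K := K) (Ω := Ω) ψ
  let F : (L →ₐ[ℚ] Ω) ≃ (K →ₐ[ℚ] Ω) × (L →ₐ[K] Ω) :=
    { toFun := fun φ => (res φ, lft (τ (res φ)) φ (fun a => hτ (res φ) a))
      invFun := fun x => cmp (τ x.1) x.2
      left_inv := fun φ => by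
        ext x
        change τ (res φ) ((τ (res φ)).symm (φ x)) = φ x
        rw [AlgEquiv.apply_symm_apply]
      right_inv := fun x => by
        obtain ⟨ψ, χ⟩ := x
        have h1 : res (cmp (τ ψ) χ) = ψ := by
          ext a
          rw [res_apply, cmp_apply, AlgHom.commutes, hτ]
        refine Prod.ext h1 ?_
        ext x
        change (τ (res (cmp (τ ψ) χ))).symm (τ ψ (χ x)) = χ x
        rw [h1, AlgEquiv.symm_apply_apply] }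
  refine ⟨F.trans (eP.prodCongr e), fun σ => ?_⟩
  have hmid : ∀ (ψ : K →ₐ[ℚ] Ω) (a : K),
      τ (σ.toAlgHom.comp ψ) (algebraMap K Ω a) = σ (τ ψ (algebraMap K Ω a)) := by
    intro ψ a
    rw [hτ, hτ]
    rfl
  let μ : (K →ₐ[ℚ] Ω) → Ω ≃ₐ[K] Ω := fun ψ => mid (τ (σ.toAlgHom.comp ψ)) σ (τ ψ) (hmid ψ)
  refine ⟨eP.permCongr (act σ), ?_, fun i => e.permCongr (act (μ (eP.symm i))), ?_, ?_⟩
  · rw [hH]
    refine ⟨σ, fun φ => ?_⟩
    rw [Equiv.permCongr_apply, Equiv.symm_apply_apply]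
    rfl
  · intro i
    rw [hG]
    refine ⟨μ (eP.symm i), fun φ => ?_⟩
    rw [Equiv.permCongr_apply, Equiv.symm_apply_apply]
    rfl
  · intro φ
    have h1 : F (σ.toAlgHom.comp φ) =
        (σ.toAlgHom.comp (res φ), (μ (res φ)).toAlgHom.comp (F φ).2) := by
      refine Prod.ext rfl ?_
      ext x
      change (τ (res (σ.toAlgHom.comp φ))).symm (σ (φ x)) =
        (τ (σ.toAlgHom.comp (res φ))).symm (σ (τ (res φ) ((τ (res φ)).symm (φ x))))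
      rw [AlgEquiv.apply_symm_apply]
      rfl
    rw [Equiv.trans_apply, h1]
    refine Prod.ext ?_ ?_
    · change eP (σ.toAlgHom.comp (res φ)) = eP.permCongr (act σ) (eP (res φ))
      rw [Equiv.permCongr_apply, Equiv.symm_apply_apply]
      rfl
    · change e ((μ (res φ)).toAlgHom.comp (F φ).2) =
        e.permCongr (act (μ (eP.symm (eP (res φ))))) (e (F φ).2)
      rw [Equiv.permCongr_apply, Equiv.symm_apply_apply, Equiv.symm_apply_apply]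
      rfl

end

end Pool.Agent.Q52.WM
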